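import Pool.Agent.TP.Main

/-!
# Varieties dominated by products through algebraic correspondences
-/

set_option autoImplicit false

universe u v w x

open CategoryTheory CategoryTheory.Limits AlgebraicGeometry
open scoped TensorProduct

namespace Pool.Agent.TP

namespace WeilTheory

variable {k : Type u} [Field k] {K : Type v} [Field K] (W : WeilTheory.{u, v, w} k K)

lemma eq_zero_of_gt {X : SmProp k} {b : ℕ} (hb : 2 * X.dim < b) {z : W.H X}
    (hz : z ∈ W.gr X b) : z = 0 := by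
  refine W.duality X z fun y => ?_
  refine W.homogeneous_induction (p := fun y => W.tr X (z * y) = 0) ?_ (by simp)
    (fun x y hx hy => by rw [mul_add, map_add, hx, hy, add_zero]) y
  intro j y hy
  exact W.tr_off X (b + j) _ (by omega) (W.mul_mem _ _ _ _ _ hz hy)

/-- The direct image. -/
noncomputable def push {T Z : SmProp k} (f : T.obj ⟶ Z.obj) : W.H T →ₗ[K] W.H Z :=
  (W.pd Z).symm.toLinearMap ∘ₗ (W.pull f).toLinearMap.dualMap ∘ₗ (W.pd T).toLinearMap

lemma isPush_push {T Z : SmProp k} (f : T.obj ⟶ Z.obj) (t : W.H T) :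
    W.IsPush f t (W.push f t) := fun z =>
  LinearMap.congr_fun ((W.pd Z).apply_symm_apply
    ((W.pull f).toLinearMap.dualMap (W.pd T t))) z

variable {W} in
lemma IsPush.eq {T Z : SmProp k} {f : T.obj ⟶ Z.obj} {t : W.H T} {x : W.H Z}
    (h : W.IsPush f t x) : x = W.push f t := by
  rw [← sub_eq_zero]
  refine W.duality Z _ fun z => ?_
  rw [sub_mul, map_sub, h z, W.isPush_push f t z, sub_self]

lemma push_mem {T Z : SmProp k} (f : T.obj ⟶ Z.obj) {t : W.H T} {m n : ℕ}
    (ht : t ∈ W.gr T m) (hn : n + 2 * T.dim = m + 2 * Z.dim) : W.push f t ∈ W.gr Z n := by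
  by_cases hn' : n ≤ 2 * Z.dim
  · refine W.mem_gr_of_orth (m := 2 * Z.dim - n) (by omega) fun j hj v hv => ?_
    rw [W.isPush_push f t v]
    exact W.tr_off T (m + j) _ (by omega) (W.mul_mem _ _ _ _ _ ht (W.pull_mem _ _ _ hv))
  · have : t = 0 := W.eq_zero_of_gt (b := m) (by omega) ht
    rw [this, map_zero]
    exact zero_mem _

lemma push_eq_zero {T Z : SmProp k} (f : T.obj ⟶ Z.obj) {t : W.H T} {m : ℕ}
    (ht : t ∈ W.gr T m) (hm : m + 2 * Z.dim < 2 * T.dim) : W.push f t = 0 := by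
  refine W.duality Z _ fun v => ?_
  refine W.homogeneous_induction (p := fun v => W.tr Z (W.push f t * v) = 0) ?_ (by simp)
    (fun x y hx hy => by rw [mul_add, map_add, hx, hy, add_zero]) v
  intro j v hv
  rw [W.isPush_push f t v]
  by_cases hj : m + j = 2 * T.dim
  · rw [W.eq_zero_of_gt (b := j) (by omega) hv]
    simp
  · exact W.tr_off T (m + j) _ hj (W.mul_mem _ _ _ _ _ ht (W.pull_mem _ _ _ hv))

variable [Finite k] [CharZero K]

lemma push_frob {T Z : SmProp k} (f : T.obj ⟶ Z.obj) (t : W.H T) {F : T.obj ⟶ T.obj}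
    {G : Z.obj ⟶ Z.obj} (hF : IsAbsFrob (Nat.card k) F.left)
    (hG : IsAbsFrob (Nat.card k) G.left) :
    (Nat.card k : K) ^ T.dim • W.pull G (W.push f t) =
      (Nat.card k : K) ^ Z.dim • W.push f (W.pull F t) := by
  rw [← sub_eq_zero]
  refine W.duality Z _ fun z' => ?_
  obtain ⟨z, rfl⟩ := W.pull_frob_surjective hG z'
  have e1 : W.tr Z (W.pull G (W.push f t) * W.pull G z) =
      (Nat.card k : K) ^ Z.dim * W.tr T (t * W.pull f z) := by
    rw [← map_mul, W.tr_frob Z G hG, W.isPush_push f t z]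
  have e2 : W.tr Z (W.push f (W.pull F t) * W.pull G z) =
      (Nat.card k : K) ^ T.dim * W.tr T (t * W.pull f z) := by
    rw [W.isPush_push f _ _, ← W.pull_comp, ← SmProp.frob_comm hF hG f, W.pull_comp,
      ← map_mul, W.tr_frob T F hF]
  rw [sub_mul, map_sub, smul_mul_assoc, smul_mul_assoc, map_smul, map_smul, e1, e2,
    smul_eq_mul, smul_eq_mul]
  ring

lemma push_eig {T Z : SmProp k} (f : T.obj ⟶ Z.obj) {t : W.H T} {F : T.obj ⟶ T.obj}
    {G : Z.obj ⟶ Z.obj} (hF : IsAbsFrob (Nat.card k) F.left)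
    (hG : IsAbsFrob (Nat.card k) G.left) {μ ν : K}
    (hμ : ν * (Nat.card k : K) ^ T.dim = μ * (Nat.card k : K) ^ Z.dim)
    (ht : t ∈ Module.End.maxGenEigenspace (W.pull F).toLinearMap μ) :
    W.push f t ∈ Module.End.maxGenEigenspace (W.pull G).toLinearMap ν := by
  have hq : (Nat.card k : K) ≠ 0 := q_ne
  rw [Module.End.mem_maxGenEigenspace] at ht ⊢
  obtain ⟨m, hm⟩ := ht
  refine ⟨m, ?_⟩
  have e : ∀ (n : ℕ) (t : W.H T),
      (((W.pull G).toLinearMap - ν • (1 : Module.End K (W.H Z))) ^ n) (W.push f t) =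
        ((Nat.card k : K) ^ Z.dim / (Nat.card k : K) ^ T.dim) ^ n •
          W.push f ((((W.pull F).toLinearMap - μ • (1 : Module.End K (W.H T))) ^ n) t) := by
    intro n
    induction n with
    | zero => intro t; simp
    | succ n ih =>
      intro t
      rw [pow_succ, pow_succ, pow_succ, Module.End.mul_apply, Module.End.mul_apply]
      have h1 : ((W.pull G).toLinearMap - ν • (1 : Module.End K (W.H Z))) (W.push f t) =
          ((Nat.card k : K) ^ Z.dim / (Nat.card k : K) ^ T.dim) •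
            W.push f (((W.pull F).toLinearMap - μ • (1 : Module.End K (W.H T))) t) := by
        simp only [LinearMap.sub_apply, LinearMap.smul_apply, Module.End.one_apply,
          AlgHom.toLinearMap_apply, map_sub, map_smul, smul_sub, smul_smul]
        have h2 : W.pull G (W.push f t) =
            ((Nat.card k : K) ^ Z.dim / (Nat.card k : K) ^ T.dim) • W.push f (W.pull F t) := by
          rw [div_eq_inv_mul, mul_smul, ← W.push_frob f t hF hG, smul_smul,
            inv_mul_cancel₀ (pow_ne_zero _ hq), one_smul]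
        have h3 : ν = (Nat.card k : K) ^ Z.dim / (Nat.card k : K) ^ T.dim * μ := by
          rw [div_mul_eq_mul_div, eq_div_iff (pow_ne_zero _ hq), hμ, mul_comm]
        rw [h2, ← h3]
      rw [h1, map_smul, ih, smul_smul]
      congr 1
      ring
  rw [e, hm, map_zero, smul_zero]

/-- The main theorem. -/
theorem main [IsAlgClosed K] {ι : Type x} {X : ι → SmProp k} {dg : ι → ℕ}
    (F : ∀ a, (X a).obj ⟶ (X a).obj) (hF : ∀ a, IsAbsFrob (Nat.card k) (F a).left)
    (htate : ∀ a i, dg a = 2 * i → ∀ x ∈ W.eig (F a) (dg a) ((Nat.card k : K) ^ i),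
      W.Alg (X a) i x)
    (hpair : ∀ a z, (∀ i, dg a = 2 * i → z ≠ (Nat.card k : K) ^ i) →
      W.eig (F a) (dg a) z ≠ ⊥ →
      (∀ x ∈ W.eig (F a) (dg a) z, ∀ y ∈ W.eig (F a) (dg a) ((Nat.card k : K) ^ dg a / z),
          W.Alg ((X a).prod (X a)) (dg a) (W.ext x y)) ∨
      ((∃ e, ∀ l, ∀ x ∈ W.eig (F a) l z, ∃ c : K, x = c • e) ∧
        ∃ d, W.Alg ((X a).prod (X a)) (dg a) d ∧ ∀ x ∈ W.gr (X a) (dg a),
          ∃ v, W.IsPush ((X a).fst (X a)) (d * W.pull ((X a).snd (X a)) v) x))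
    (hneat : ∀ M : Multiset (ι × K), (∀ p ∈ M, W.eig (F p.1) (dg p.1) p.2 ≠ ⊥ ∧
        ∀ i, dg p.1 = 2 * i → p.2 ≠ (Nat.card k : K) ^ i) →
      (∃ i, (M.map fun p => dg p.1).sum = 2 * i ∧
        (M.map fun p => p.2).prod = (Nat.card k : K) ^ i) →
      ∃ N, M = N + N.map fun p => (p.1, (Nat.card k : K) ^ dg p.1 / p.2))
    (Z : SmProp k)
    (hZ : ∀ x : W.H Z, x ∈ Submodule.span K {x | ∃ (T : SmProp k) (f : T.obj ⟶ Z.obj)
      (t : W.H T), W.Mono X dg T t ∧ W.IsPush f t x})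
    (G : Z.obj ⟶ Z.obj)
    (hG : IsAbsFrob (Nat.card k) G.left) (i : ℕ) (x : W.H Z) (hx : x ∈ W.gr Z (2 * i))
    (hx' : x ∈ Module.End.maxGenEigenspace (W.pull G).toLinearMap ((Nat.card k : K) ^ i)) :
    W.Alg Z i x := by
  have hq : (Nat.card k : K) ≠ 0 := q_ne
  have hstar := Fac.star hF hpair
  let R : ℕ → K → Submodule K (W.H Z) := fun n ν => Submodule.span K
    {x | ∃ (T : SmProp k) (f : T.obj ⟶ Z.obj) (c : ℕ) (γ : W.H T) (L : List (Fac W X T)),
      W.Alg T c γ ∧ (∀ f ∈ L, f.Good dg F) ∧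
        n + 2 * T.dim = (2 * c + (L.map Fac.j).sum) + 2 * Z.dim ∧
        ν * (Nat.card k : K) ^ T.dim =
          ((Nat.card k : K) ^ c * (L.map Fac.z).prod) * (Nat.card k : K) ^ Z.dim ∧
        x = W.push f (γ * (L.map Fac.val).prod)}
  have hRtop : ⨆ j, ⨆ μ, R j μ = ⊤ := by
    rw [eq_top_iff]
    intro w _
    refine (Submodule.span_le.mpr ?_) (hZ w)
    rintro w ⟨T, f, t, ht, hw⟩
    rw [hw.eq]
    have ht' := Fac.mono_mem_span htate ht
    change W.push f t ∈ ⨆ j, ⨆ μ, R j μ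
    clear hw ht
    induction ht' using Submodule.span_induction with
    | zero => simp
    | add x y _ _ hx hy => rw [map_add]; exact add_mem hx hy
    | smul c x _ hx => rw [map_smul]; exact Submodule.smul_mem _ c hx
    | mem x hx =>
      obtain ⟨c, γ, L, hγ, hL, rfl⟩ := hx
      have hdeg : γ * (L.map Fac.val).prod ∈ W.gr T (2 * c + (L.map Fac.j).sum) :=
        W.mul_mem _ _ _ _ _ hγ.mem (Fac.prod_mem L hL)
      by_cases hn : 2 * T.dim ≤ (2 * c + (L.map Fac.j).sum) + 2 * Z.dim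
      · refine Submodule.mem_iSup_of_mem ((2 * c + (L.map Fac.j).sum) + 2 * Z.dim - 2 * T.dim)
          (Submodule.mem_iSup_of_mem
            ((((Nat.card k : K) ^ c * (L.map Fac.z).prod) * (Nat.card k : K) ^ Z.dim) /
              (Nat.card k : K) ^ T.dim)
            (Submodule.subset_span ⟨T, f, c, γ, L, hγ, hL, by omega, ?_, rfl⟩))
        rw [div_mul_cancel₀ _ (pow_ne_zero _ hq)]
      · rw [W.push_eq_zero f hdeg (by omega)]
        exact zero_mem _
  have hRgr : ∀ j, (⨆ μ, R j μ) ≤ W.gr Z j := by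
    intro n
    refine iSup_le fun ν => Submodule.span_le.mpr ?_
    rintro _ ⟨T, f, c, γ, L, hγ, hL, hn, hν, rfl⟩
    exact W.push_mem f (W.mul_mem _ _ _ _ _ hγ.mem (Fac.prod_mem L hL)) hn
  have hReig : ∀ j μ, R j μ ≤ Module.End.maxGenEigenspace (W.pull G).toLinearMap μ := by
    intro n ν
    refine Submodule.span_le.mpr ?_
    rintro _ ⟨T, f, c, γ, L, hγ, hL, hn, hν, rfl⟩
    obtain ⟨P, hP⟩ := T.exists_frob
    refine W.push_eig f hP hG hν (genEig_mul _ ?_ (Fac.prod_eig hF L hL hP))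
    rw [Module.End.mem_maxGenEigenspace]
    refine ⟨1, ?_⟩
    rw [pow_one, LinearMap.sub_apply, LinearMap.smul_apply, Module.End.one_apply,
      AlgHom.toLinearMap_apply, hγ.frob hP, sub_self]
  have h1 : x ∈ ⨆ μ, R (2 * i) μ := by
    have := inf_iSup_le_of_indep (W.indep_gr Z) hRgr (2 * i)
    rw [hRtop, inf_top_eq] at this
    exact this hx
  have h2 : x ∈ R (2 * i) ((Nat.card k : K) ^ i) :=
    inf_iSup_le_of_indep (Module.End.independent_maxGenEigenspace (W.pull G).toLinearMap)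
      (hReig (2 * i)) ((Nat.card k : K) ^ i) ⟨hx', h1⟩
  have h3 : R (2 * i) ((Nat.card k : K) ^ i) ≤ W.algSub Z i := by
    refine Submodule.span_le.mpr ?_
    rintro _ ⟨T, f, c, γ, L, hγ, hL, hn, hν, rfl⟩
    obtain ⟨l, hl⟩ : ∃ l, (L.map Fac.j).sum = 2 * l := ⟨(L.map Fac.j).sum / 2, by omega⟩
    have hil : c + l + Z.dim = i + T.dim := by omega
    have hμ : (L.map Fac.z).prod = (Nat.card k : K) ^ l := by
      have h4 : (Nat.card k : K) ^ (c + Z.dim) * (L.map Fac.z).prod =
          (Nat.card k : K) ^ (c + Z.dim) * (Nat.card k : K) ^ l := by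
        calc (Nat.card k : K) ^ (c + Z.dim) * (L.map Fac.z).prod
            = ((Nat.card k : K) ^ c * (L.map Fac.z).prod) * (Nat.card k : K) ^ Z.dim := by ring
          _ = (Nat.card k : K) ^ i * (Nat.card k : K) ^ T.dim := hν.symm
          _ = (Nat.card k : K) ^ (c + Z.dim) * (Nat.card k : K) ^ l := by
              rw [← pow_add, ← pow_add, ← hil]; congr 1; omega
      exact mul_left_cancel₀ (pow_ne_zero _ hq) h4
    have hy := Fac.prod_alg hstar hneat L hL hl hμ
    have halg : W.Alg T (c + l) (γ * (L.map Fac.val).prod) := Alg.mul hγ hy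
    exact Alg.push f halg (W.push_mem f halg.mem (by omega)) hil (W.isPush_push f _)
  exact h3 h2

end WeilTheory

end Pool.Agent.TP
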