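import Pool.Agent.TP.Defs
import Pool.Agent.TP.Dom

/-!
# From the statement to the bundled theory
-/

set_option autoImplicit false

universe u v w x

open CategoryTheory AlgebraicGeometry

namespace Pool.Agent.TP

namespace Coh

variable {k : Type u} [Field k] {K : Type v} [Field K] {C : Coh.{u, v, w} k K}

/-- The bundled theory. -/
@[reducible] def IsWeil.theory (h : C.IsWeil) : WeilTheory.{u, v, w} k K where
  H := C.H
  ring := C.ring
  algebra := C.algebra
  finite := h.finite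
  gr := C.gr
  internal := h.internal
  one_mem := h.one_deg
  mul_mem := h.mul_deg
  comm := h.comm
  pull := C.pullHom
  pull_id := h.pull_id
  pull_comp := h.pull_comp
  pull_mem := h.pull_deg
  kunneth := h.kunneth
  tr := C.trHom
  tr_off := h.tr_off
  duality := h.duality
  tr_prod := h.tr_ext
  tr_frob := h.tr_frob

lemma IsWeil.alg_to (h : C.IsWeil) {X : SmProp k} {i : ℕ} {x : C.H X} (hx : C.Alg X i x) :
    h.theory.Alg X i x := by
  induction hx with
  | zero X i => exact WeilTheory.Alg.zero X i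
  | one X => exact WeilTheory.Alg.one X
  | add _ _ h1 h2 => exact WeilTheory.Alg.add h1 h2
  | smul c _ h1 => exact WeilTheory.Alg.smul c h1
  | mul _ _ h1 h2 => exact WeilTheory.Alg.mul h1 h2
  | pull f _ h1 => exact WeilTheory.Alg.pull f h1
  | push f _ hy hd hp h1 => exact WeilTheory.Alg.push f h1 hy hd hp

lemma IsWeil.alg_of (h : C.IsWeil) {X : SmProp k} {i : ℕ} {x : h.theory.H X}
    (hx : h.theory.Alg X i x) : C.Alg X i x := by
  induction hx with
  | zero X i => exact Alg.zero X i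
  | one X => exact Alg.one X
  | add _ _ h1 h2 => exact Alg.add h1 h2
  | smul c _ h1 => exact Alg.smul c h1
  | mul _ _ h1 h2 => exact Alg.mul h1 h2
  | pull f _ h1 => exact Alg.pull f h1
  | push f _ hy hd hp h1 => exact Alg.push f h1 hy hd hp

variable [Finite k]

lemma frob_unique {X : SmProp k} {F G : X.obj ⟶ X.obj} (hF : IsAbsFrob (Nat.card k) F.left)
    (hG : IsAbsFrob (Nat.card k) G.left) : F = G := by
  have := SmProp.frob_comm hF hG (𝟙 X.obj)
  simpa using this

lemma isEig_iff {X : SmProp k} {F : X.obj ⟶ X.obj} (hF : IsAbsFrob (Nat.card k) F.left) {j : ℕ}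
    {z : K} {x : C.H X} : C.IsEig X j z x ↔ x ∈ C.gr X j ∧
      x ∈ Module.End.maxGenEigenspace (C.pullHom F).toLinearMap z := by
  constructor
  · rintro ⟨h1, G, hG, h2⟩
    rw [frob_unique hF hG]
    exact ⟨h1, h2⟩
  · rintro ⟨h1, h2⟩
    exact ⟨h1, F, hF, h2⟩

omit [Finite k] in
lemma IsWeil.mono_to (h : C.IsWeil) {ι : Type x} {X : ι → SmProp k} {j : ι → ℕ} {T : SmProp k}
    {t : C.H T} (ht : C.Mono X j T t) : h.theory.Mono X j T t := by
  induction ht with
  | alg h1 => exact WeilTheory.Mono.alg (h.alg_to h1)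
  | mul g _ hy ih => exact WeilTheory.Mono.mul g ih hy

theorem main [CharZero K] [IsAlgClosed K] (hC : C.IsWeil) {ι : Type x} (X : ι → SmProp k)
    (j : ι → ℕ)
    (hTate : ∀ a i x, j a = 2 * i → C.IsEig (X a) (j a) ((Nat.card k : K) ^ i) x →
      C.Alg (X a) i x)
    (hpair : ∀ a z, C.NonTate (X a) (j a) z → C.Paired (X a) (j a) z) (hneat : C.Neat X j)
    (Z : SmProp k) (hZ : C.Dominated X j Z) : C.Tate Z := by
  choose F hF using fun a => (X a).exists_frob
  have hne : ∀ a z, hC.theory.eig (F a) (j a) z ≠ ⊥ →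
      ∃ x, x ≠ 0 ∧ C.IsEig (X a) (j a) z x := by
    intro a z h
    obtain ⟨x, hx, hx0⟩ := Submodule.exists_mem_ne_zero_of_ne_bot h
    exact ⟨x, hx0, (isEig_iff (hF a)).mpr hx⟩
  rintro i x ⟨hx1, G, hG, hx2⟩
  refine hC.alg_of ?_
  refine hC.theory.main (dg := j) F hF ?_ ?_ ?_ Z ?_ G hG i x hx1 hx2
  · intro a i hi x hx
    exact hC.alg_to (hTate a i x hi ((isEig_iff (hF a)).mpr hx))
  · intro a z hz hbot
    rcases hpair a z ⟨hne a z hbot, hz⟩ with h | ⟨⟨e, he⟩, h⟩
    · left
      intro x hx y hy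
      exact hC.alg_to (h x y ((isEig_iff (hF a)).mpr hx) ((isEig_iff (hF a)).mpr hy))
    · right
      refine ⟨⟨e, fun l x hx => he l x ((isEig_iff (hF a)).mpr hx)⟩, ?_⟩
      rcases h with h | ⟨d, hd, hd'⟩
      · refine ⟨hC.theory.del (X a), ?_, fun x _ => ⟨x, hC.theory.isPush_del (X a) x⟩⟩
        rw [h]
        exact hC.theory.alg_del (X a)
      · exact ⟨d, hC.alg_to hd, hd'⟩
  · intro M hM hM'
    exact hneat M (fun p hp => ⟨hne p.1 p.2 (hM p hp).1, (hM p hp).2⟩) hM'
  · intro y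
    refine Submodule.span_mono ?_ (hZ y)
    rintro y ⟨T, f, t, ht, hpush⟩
    exact ⟨T, f, t, hC.mono_to ht, hpush⟩

end Coh

end Pool.Agent.TP
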