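import Pool.Agent.TP.Sch

/-!
# Weil cohomology theories on smooth proper schemes over a finite field

Weil cohomology theories with coefficients in a field `K` of characteristic zero (for instance
`l`-adic cohomology with coefficients in an algebraic closure of the field of `l`-adic numbers),
the classes which are obtained from the unit classes by linear combinations, products,
inverse images and direct images (they are linear combinations of classes of algebraic cycles),
and the Tate conjecture.
-/

set_option autoImplicit false

universe u v w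

open CategoryTheory AlgebraicGeometry

namespace Pool.Agent.TP

/-- The data of a cohomology theory on the smooth proper schemes over `k`, with coefficients
in `K`. -/
structure Coh (k : Type u) [Field k] (K : Type v) [Field K] where
  /-- the cohomology ring of `X` -/
  H : SmProp k → Type w
  [ring : ∀ X, Ring (H X)]
  [algebra : ∀ X, Algebra K (H X)]
  /-- the cohomology of `X` in degree `i` -/
  gr : ∀ X, ℕ → Submodule K (H X)
  /-- the inverse image -/
  pullHom : ∀ {X Y : SmProp k}, (X.obj ⟶ Y.obj) → (H Y →ₐ[K] H X)
  /-- the trace (or orientation) map of `X` -/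
  trHom : ∀ X, H X →ₗ[K] K

attribute [instance] Coh.ring Coh.algebra

namespace Coh

variable {k : Type u} [Field k] {K : Type v} [Field K] (C : Coh.{u, v, w} k K)

/-- The inverse image of the class `y` under `f`. -/
def pull {X Y : SmProp k} (f : X.obj ⟶ Y.obj) (y : C.H Y) : C.H X := C.pullHom f y

/-- The trace of the class `x`. -/
def tr (X : SmProp k) (x : C.H X) : K := C.trHom X x

/-- The exterior product of `x` and `y`. -/
noncomputable def ext {X Y : SmProp k} (x : C.H X) (y : C.H Y) : C.H (X.prod Y) :=
  C.pull (X.fst Y) x * C.pull (X.snd Y) y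

/-- The class `x` has degree `i`. -/
def Deg (X : SmProp k) (i : ℕ) (x : C.H X) : Prop := x ∈ C.gr X i

/-- `C` consists of finite-dimensional graded-commutative rings, functorial in `X`, with a
Künneth formula. -/
structure IsCoh : Prop where
  finite : ∀ X, FiniteDimensional K (C.H X)
  internal : ∀ X, DirectSum.IsInternal (C.gr X)
  one_deg : ∀ X, C.Deg X 0 1
  mul_deg : ∀ X i j x y, C.Deg X i x → C.Deg X j y → C.Deg X (i + j) (x * y)
  comm : ∀ X i j x y, C.Deg X i x → C.Deg X j y → x * y = (-1) ^ (i * j) * (y * x)
  pull_id : ∀ (X : SmProp k) (x : C.H X), C.pull (𝟙 X.obj) x = x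
  pull_comp : ∀ {X Y Z : SmProp k} (f : X.obj ⟶ Y.obj) (g : Y.obj ⟶ Z.obj) (z : C.H Z),
    C.pull (f ≫ g) z = C.pull f (C.pull g z)
  pull_deg : ∀ {X Y : SmProp k} (f : X.obj ⟶ Y.obj) i y, C.Deg Y i y → C.Deg X i (C.pull f y)
  kunneth : ∀ (X Y : SmProp k) (z : C.H (X.prod Y)),
    z ∈ Submodule.span K {z | ∃ (x : C.H X) (y : C.H Y), z = C.ext x y}

/-- `C` is a Weil cohomology theory: moreover it satisfies Poincaré duality, with trace
maps compatible with products, and the Frobenius endomorphism of a
scheme of dimension `d` over the field `k` with `q` elements has degree `q ^ d`; for instance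
`X ↦ H^*(X ×_k kbar, ℚ_l) ⊗ K`, where `ℚ_l` is embedded in the algebraically closed field `K` and a
generator of `ℚ_l(1)` over `kbar` is chosen. -/
structure IsWeil : Prop extends C.IsCoh where
  tr_off : ∀ X i x, i ≠ 2 * X.dim → C.Deg X i x → C.tr X x = 0
  duality : ∀ X x, (∀ y, C.tr X (x * y) = 0) → x = 0
  tr_ext : ∀ (X Y : SmProp k) (x : C.H X) (y : C.H Y),
    C.tr (X.prod Y) (C.ext x y) = C.tr X x * C.tr Y y
  tr_frob : ∀ (X : SmProp k) (F : X.obj ⟶ X.obj), IsAbsFrob (Nat.card k) F.left →
    ∀ x, C.tr X (C.pull F x) = (Nat.card k : K) ^ X.dim * C.tr X x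

/-- The class `y` is the direct image of the class `x` under `f`. -/
def IsPush {X Y : SmProp k} (f : X.obj ⟶ Y.obj) (x : C.H X) (y : C.H Y) : Prop :=
  ∀ z, C.tr Y (y * z) = C.tr X (x * C.pull f z)

/-- `C.Alg X i x`: the class `x` of degree `2 i` is obtained from unit classes by linear
combinations, products, inverse images and direct images; all such classes are linear combinations
of classes of algebraic cycles of codimension `i`. -/
inductive Alg : (X : SmProp k) → ℕ → C.H X → Prop
  | zero (X : SmProp k) (i : ℕ) : Alg X i 0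
  | one (X : SmProp k) : Alg X 0 1
  | add {X : SmProp k} {i : ℕ} {x y : C.H X} : Alg X i x → Alg X i y → Alg X i (x + y)
  | smul {X : SmProp k} {i : ℕ} {x : C.H X} (c : K) : Alg X i x → Alg X i (c • x)
  | mul {X : SmProp k} {i j : ℕ} {x y : C.H X} :
      Alg X i x → Alg X j y → Alg X (i + j) (x * y)
  | pull {X Y : SmProp k} {i : ℕ} {y : C.H Y} (f : X.obj ⟶ Y.obj) :
      Alg Y i y → Alg X i (C.pull f y)
  | push {X Y : SmProp k} {i j : ℕ} {x : C.H X} {y : C.H Y} (f : X.obj ⟶ Y.obj) :
      Alg X i x → C.Deg Y (2 * j) y → i + Y.dim = j + X.dim → C.IsPush f x y → Alg Y j y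

/-- The class `x` of degree `j` is a generalised eigenvector of the Frobenius endomorphism of `X`
for the eigenvalue `z`. -/
def IsEig (X : SmProp k) (j : ℕ) (z : K) (x : C.H X) : Prop :=
  C.Deg X j x ∧ ∃ F : X.obj ⟶ X.obj, IsAbsFrob (Nat.card k) F.left ∧
    x ∈ Module.End.maxGenEigenspace (C.pullHom F).toLinearMap z

/-- The Tate conjecture for `X`, in every codimension `i`, in the strong form which includes the
semisimplicity of the eigenvalue `q ^ i`: all generalised eigenvectors of the Frobenius
endomorphism of degree `2 i` for the eigenvalue `q ^ i` are algebraic. -/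
def Tate (X : SmProp k) : Prop :=
  ∀ i x, C.IsEig X (2 * i) ((Nat.card k : K) ^ i) x → C.Alg X i x

/-- `z` is an eigenvalue of Frobenius on the cohomology of `X` in degree `j`, and is
different from `q ^ (j / 2)`. -/
def NonTate (X : SmProp k) (j : ℕ) (z : K) : Prop :=
  (∃ x, x ≠ 0 ∧ C.IsEig X j z x) ∧ ∀ i, j = 2 * i → z ≠ (Nat.card k : K) ^ i

/-- Either all exterior products of the generalised eigenvectors of Frobenius of degree `j` on `X`
for `z` and for `q ^ j / z` are algebraic (a case of the Tate conjecture for the square of `X`), or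
`z` is a simple eigenvalue of Frobenius on the whole cohomology of `X`, and all classes of
degree `j` are images of classes under an algebraic correspondence `d` of codimension `j` (a case of
the Lefschetz standard conjecture; if `j = dim X` the diagonal is such a correspondence). -/
def Paired (X : SmProp k) (j : ℕ) (z : K) : Prop :=
  (∀ x y, C.IsEig X j z x → C.IsEig X j ((Nat.card k : K) ^ j / z) y →
    C.Alg (X.prod X) j (C.ext x y)) ∨
  ((∃ e, ∀ l x, C.IsEig X l z x → ∃ c : K, x = c • e) ∧
    (j = X.dim ∨ ∃ d, C.Alg (X.prod X) j d ∧ ∀ x, C.Deg X j x →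
      ∃ v, C.IsPush (X.fst X) (d * C.pull (X.snd X) v) x))

/-- The only multiplicative relations between the eigenvalues with `NonTate` in degree `j a` on
the `X a` are the trivial ones: every multiset of pairs `(a, z)`, `z` such an eigenvalue
for `X a`, in which the sum of the `j a` is `2 i` and the product of the `z` is `q ^ i`, is a sum
of pairs `(a, z), (a, q ^ j a / z)`. -/
def Neat {ι : Type*} (X : ι → SmProp k) (j : ι → ℕ) : Prop :=
  ∀ M : Multiset (ι × K), (∀ p ∈ M, C.NonTate (X p.1) (j p.1) p.2) →
    (∃ i, (M.map fun p => j p.1).sum = 2 * i ∧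
      (M.map fun p => p.2).prod = (Nat.card k : K) ^ i) →
    ∃ N, M = N + N.map fun p => (p.1, (Nat.card k : K) ^ j p.1 / p.2)

/-- The classes `γ * g₁^* y₁ * ⋯ * gₙ^* yₙ` on `T`, with `γ` algebraic and `yᵢ` a class of
degree `j a` on some `X a`. -/
inductive Mono {ι : Type*} (X : ι → SmProp k) (j : ι → ℕ) (T : SmProp k) : C.H T → Prop
  | alg {c : ℕ} {γ : C.H T} : C.Alg T c γ → Mono X j T γ
  | mul {a : ι} {x : C.H T} {y : C.H (X a)} (g : T.obj ⟶ (X a).obj) :
      Mono X j T x → C.Deg (X a) (j a) y → Mono X j T (x * C.pull g y)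

/-- The cohomology of `Z` is spanned by the images of products of classes of degree `j a` on
the `X a` under algebraic correspondences. For instance `Z` is any product of the `X a` and the
cohomology of `X a` in degrees different from `j a` is algebraic; or the `X a` are curves,
`j a = 1`, and `Z` is an abelian variety or a moduli space of vector bundles on a curve; or `X a` is
a K3 surface, `j a = 2`, and `Z` is a Hilbert scheme of points. -/
def Dominated {ι : Type*} (X : ι → SmProp k) (j : ι → ℕ) (Z : SmProp k) : Prop :=
  ∀ x : C.H Z, x ∈ Submodule.span K {x | ∃ (T : SmProp k) (f : T.obj ⟶ Z.obj) (t : C.H T),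
    C.Mono X j T t ∧ C.IsPush f t x}

end Coh

end Pool.Agent.TP
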