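import Pool.Agent.TP.Sch

/-!
# Weil cohomology theories, bundled
-/

set_option autoImplicit false

universe u v w

open CategoryTheory CategoryTheory.Limits AlgebraicGeometry
open scoped TensorProduct

namespace Pool.Agent.TP

/-- A Weil cohomology theory on the smooth proper schemes over the finite field `k`, with
coefficients in the field `K` (for instance `X ↦ H^*(X ×_k kbar, ℚ_l) ⊗ K` with `ℚ_l` embedded in
the algebraically closed field `K`, a generator of `ℚ_l(1)` over `kbar` being chosen). -/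
structure WeilTheory (k : Type u) [Field k] (K : Type v) [Field K] where
  /-- the cohomology ring of `X` -/
  H : SmProp k → Type w
  [ring : ∀ X, Ring (H X)]
  [algebra : ∀ X, Algebra K (H X)]
  finite : ∀ X, FiniteDimensional K (H X)
  /-- the cohomology of `X` in degree `i` -/
  gr : ∀ X, ℕ → Submodule K (H X)
  internal : ∀ X, DirectSum.IsInternal (gr X)
  one_mem : ∀ X, 1 ∈ gr X 0
  mul_mem : ∀ X i j x y, x ∈ gr X i → y ∈ gr X j → x * y ∈ gr X (i + j)
  comm : ∀ X i j x y, x ∈ gr X i → y ∈ gr X j → x * y = (-1) ^ (i * j) * (y * x)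
  /-- the inverse image of cohomology classes -/
  pull : ∀ {X Y : SmProp k}, (X.obj ⟶ Y.obj) → (H Y →ₐ[K] H X)
  pull_id : ∀ (X : SmProp k) (x : H X), pull (𝟙 X.obj) x = x
  pull_comp : ∀ {X Y Z : SmProp k} (f : X.obj ⟶ Y.obj) (g : Y.obj ⟶ Z.obj) (z : H Z),
    pull (f ≫ g) z = pull f (pull g z)
  pull_mem : ∀ {X Y : SmProp k} (f : X.obj ⟶ Y.obj) i y, y ∈ gr Y i → pull f y ∈ gr X i
  /-- the Künneth formula -/
  kunneth : ∀ (X Y : SmProp k) (z : H (X.prod Y)), z ∈ Submodule.span K
    {z | ∃ (x : H X) (y : H Y), z = pull (X.fst Y) x * pull (X.snd Y) y}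
  /-- the trace (or orientation) map of `X` -/
  tr : ∀ X, H X →ₗ[K] K
  tr_off : ∀ X i x, i ≠ 2 * X.dim → x ∈ gr X i → tr X x = 0
  /-- Poincaré duality -/
  duality : ∀ X x, (∀ y, tr X (x * y) = 0) → x = 0
  tr_prod : ∀ (X Y : SmProp k) x y,
    tr (X.prod Y) (pull (X.fst Y) x * pull (X.snd Y) y) = tr X x * tr Y y
  /-- the Frobenius endomorphism of a scheme of dimension `d` has degree `q ^ d` -/
  tr_frob : ∀ (X : SmProp k) (F : X.obj ⟶ X.obj), IsAbsFrob (Nat.card k) F.left →
    ∀ x, tr X (pull F x) = (Nat.card k : K) ^ X.dim * tr X x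

attribute [instance] WeilTheory.ring WeilTheory.algebra WeilTheory.finite

namespace WeilTheory

variable {k : Type u} [Field k] {K : Type v} [Field K]

/-- The class `y` is the direct image of the class `x` under `f`. -/
def IsPush (W : WeilTheory.{u, v, w} k K) {X Y : SmProp k} (f : X.obj ⟶ Y.obj) (x : W.H X)
    (y : W.H Y) : Prop :=
  ∀ z, W.tr Y (y * z) = W.tr X (x * W.pull f z)

/-- `W.Alg X i x`: the class `x` of degree `2 i` is obtained from unit classes by linear
combinations, products, inverse images and direct images; all such classes are linear combinations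
of classes of algebraic cycles of codimension `i`. -/
inductive Alg (W : WeilTheory.{u, v, w} k K) : (X : SmProp k) → ℕ → W.H X → Prop
  | zero (X : SmProp k) (i : ℕ) : Alg W X i 0
  | one (X : SmProp k) : Alg W X 0 1
  | add {X : SmProp k} {i : ℕ} {x y : W.H X} : Alg W X i x → Alg W X i y → Alg W X i (x + y)
  | smul {X : SmProp k} {i : ℕ} {x : W.H X} (c : K) : Alg W X i x → Alg W X i (c • x)
  | mul {X : SmProp k} {i j : ℕ} {x y : W.H X} :
      Alg W X i x → Alg W X j y → Alg W X (i + j) (x * y)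
  | pull {X Y : SmProp k} {i : ℕ} {y : W.H Y} (f : X.obj ⟶ Y.obj) :
      Alg W Y i y → Alg W X i (W.pull f y)
  | push {X Y : SmProp k} {i j : ℕ} {x : W.H X} {y : W.H Y} (f : X.obj ⟶ Y.obj) :
      Alg W X i x → y ∈ W.gr Y (2 * j) → i + Y.dim = j + X.dim → W.IsPush f x y → Alg W Y j y

/-- The classes of degree `j` in the generalised eigenspace of the endomorphism `F` for the
eigenvalue `z`. -/
noncomputable def eig (W : WeilTheory.{u, v, w} k K) {X : SmProp k} (F : X.obj ⟶ X.obj) (j : ℕ)
    (z : K) : Submodule K (W.H X) :=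
  W.gr X j ⊓ Module.End.maxGenEigenspace (W.pull F).toLinearMap z

/-- The classes `γ * g₁^* y₁ * ⋯ * gₙ^* yₙ` on `T`, with `γ` algebraic and `yᵢ` a class of
degree `j a` on some `X a`. -/
inductive Mono (W : WeilTheory.{u, v, w} k K) {ι : Type*} (X : ι → SmProp k) (j : ι → ℕ)
    (T : SmProp k) : W.H T → Prop
  | alg {c : ℕ} {γ : W.H T} : W.Alg T c γ → Mono W X j T γ
  | mul {a : ι} {x : W.H T} {y : W.H (X a)} (g : T.obj ⟶ (X a).obj) :
      Mono W X j T x → y ∈ W.gr (X a) (j a) → Mono W X j T (x * W.pull g y)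

end WeilTheory

end Pool.Agent.TP
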