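import Pool.Agent.TP.Frob
import Pool.Agent.TP.Theory

/-!
# First properties of Weil cohomology theories
-/

set_option autoImplicit false

universe u v w

open CategoryTheory CategoryTheory.Limits AlgebraicGeometry
open scoped TensorProduct

namespace Pool.Agent.TP

namespace WeilTheory

variable {k : Type u} [Field k] {K : Type v} [Field K] (W : WeilTheory.{u, v, w} k K)

variable {W} in
lemma Alg.mem {X : SmProp k} {i : ℕ} {x : W.H X} (h : W.Alg X i x) : x ∈ W.gr X (2 * i) := by
  induction h with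
  | zero X i => exact zero_mem _
  | one X => exact W.one_mem X
  | add _ _ h1 h2 => exact add_mem h1 h2
  | smul c _ h => exact Submodule.smul_mem _ c h
  | mul _ _ h1 h2 =>
    have := W.mul_mem _ _ _ _ _ h1 h2
    rwa [← mul_add] at this
  | pull f _ h => exact W.pull_mem f _ _ h
  | push f _ h _ _ _ => exact h

lemma one_comp (X : SmProp k) (x : W.H X) : W.pull (𝟙 X.obj) x = x := W.pull_id X x

/-- The classes `x` with `W.Alg X i x` form a subspace. -/
def algSub (X : SmProp k) (i : ℕ) : Submodule K (W.H X) where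
  carrier := {x | W.Alg X i x}
  zero_mem' := Alg.zero X i
  add_mem' := fun h1 h2 => Alg.add h1 h2
  smul_mem' := fun c _ h => Alg.smul c h

lemma mem_algSub {X : SmProp k} {i : ℕ} {x : W.H X} : x ∈ W.algSub X i ↔ W.Alg X i x := Iff.rfl

/-- The exterior product of cohomology classes. -/
noncomputable def ext {X Y : SmProp k} (x : W.H X) (y : W.H Y) : W.H (X.prod Y) :=
  W.pull (X.fst Y) x * W.pull (X.snd Y) y

lemma ext_mem {X Y : SmProp k} {i j : ℕ} {x : W.H X} {y : W.H Y} (hx : x ∈ W.gr X i)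
    (hy : y ∈ W.gr Y j) : W.ext x y ∈ W.gr (X.prod Y) (i + j) :=
  W.mul_mem _ _ _ _ _ (W.pull_mem _ _ _ hx) (W.pull_mem _ _ _ hy)

variable {W} in
lemma Alg.ext {X Y : SmProp k} {i j : ℕ} {x : W.H X} {y : W.H Y} (hx : W.Alg X i x)
    (hy : W.Alg Y j y) : W.Alg (X.prod Y) (i + j) (W.ext x y) :=
  Alg.mul (Alg.pull _ hx) (Alg.pull _ hy)

/-- The pairing of a class on a product with a pair of morphisms. -/
lemma pull_ext {Z X Y : SmProp k} (f : Z.obj ⟶ X.obj) (g : Z.obj ⟶ Y.obj) (x : W.H X)
    (y : W.H Y) : W.pull (SmProp.lift f g) (W.ext x y) = W.pull f x * W.pull g y := by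
  rw [ext, map_mul, ← W.pull_comp, ← W.pull_comp, SmProp.lift_fst, SmProp.lift_snd]

section Frob

variable [Finite k] [CharZero K]

lemma q_ne : (Nat.card k : K) ≠ 0 := by
  have : Nat.card k ≠ 0 := Nat.card_pos.ne'
  exact_mod_cast this

lemma pull_frob_injective {X : SmProp k} {F : X.obj ⟶ X.obj}
    (hF : IsAbsFrob (Nat.card k) F.left) : Function.Injective (W.pull F) := by
  rw [injective_iff_map_eq_zero]
  intro x hx
  refine W.duality X x fun y => ?_
  have h := W.tr_frob X F hF (x * y)
  rw [map_mul, hx, zero_mul, map_zero] at h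
  exact (mul_eq_zero.mp h.symm).resolve_left (pow_ne_zero _ q_ne)

lemma pull_frob_surjective {X : SmProp k} {F : X.obj ⟶ X.obj}
    (hF : IsAbsFrob (Nat.card k) F.left) : Function.Surjective (W.pull F) :=
  LinearMap.surjective_of_injective (f := (W.pull F).toLinearMap) (W.pull_frob_injective hF)

variable {W} in
lemma Alg.frob {X : SmProp k} {i : ℕ} {x : W.H X} (h : W.Alg X i x) :
    ∀ {F : X.obj ⟶ X.obj}, IsAbsFrob (Nat.card k) F.left →
      W.pull F x = (Nat.card k : K) ^ i • x := by
  induction h with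
  | zero X i => intro F _; simp
  | one X => intro F _; simp
  | add _ _ h1 h2 => intro F hF; rw [map_add, h1 hF, h2 hF, smul_add]
  | smul c _ h => intro F hF; rw [map_smul, h hF, smul_comm]
  | mul _ _ h1 h2 =>
    intro F hF
    rw [map_mul, h1 hF, h2 hF, smul_mul_smul_comm, pow_add]
  | @pull X Y i y f _ h =>
    intro F hF
    obtain ⟨G, hG⟩ := Y.exists_frob
    rw [← W.pull_comp, SmProp.frob_comm hF hG f, W.pull_comp, h hG, map_smul]
  | @push X Y i j x y f _ _ hd hy h =>
    intro G hG
    obtain ⟨F, hF⟩ := X.exists_frob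
    have hq : (Nat.card k : K) ≠ 0 := q_ne
    rw [← sub_eq_zero]
    refine W.duality Y _ fun z' => ?_
    obtain ⟨z, rfl⟩ := W.pull_frob_surjective hG z'
    have e1 : W.tr Y (W.pull G y * W.pull G z) = (Nat.card k : K) ^ Y.dim * W.tr Y (y * z) := by
      rw [← map_mul, W.tr_frob Y G hG]
    have e2 : W.tr Y (y * W.pull G z) = W.tr X (x * W.pull F (W.pull f z)) := by
      rw [hy, ← W.pull_comp, ← SmProp.frob_comm hF hG f, W.pull_comp]
    have e3 : (Nat.card k : K) ^ i * W.tr X (x * W.pull F (W.pull f z)) =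
        (Nat.card k : K) ^ X.dim * W.tr Y (y * z) := by
      rw [hy, ← W.tr_frob X F hF, map_mul (W.pull F), h hF, smul_mul_assoc, map_smul, smul_eq_mul]
    rw [sub_mul, map_sub, e1, smul_mul_assoc, map_smul, smul_eq_mul, e2, sub_eq_zero]
    apply mul_left_cancel₀ (pow_ne_zero i hq)
    rw [← mul_assoc, ← pow_add, hd, pow_add, mul_assoc, ← e3, mul_left_comm]

end Frob

end WeilTheory

end Pool.Agent.TP
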