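import Pool.Agent.TP.Basic

/-!
# The class of the diagonal and its eigencomponents
-/

set_option autoImplicit false

universe u v w

open CategoryTheory CategoryTheory.Limits AlgebraicGeometry
open scoped TensorProduct

namespace Pool.Agent.TP

section Lattice

variable {K V ι : Type*} [Field K] [AddCommGroup V] [Module K V]

lemma inf_iSup_le_of_indep {E R : ι → Submodule K V} (hE : iSupIndep E) (hR : ∀ i, R i ≤ E i)
    (i : ι) : E i ⊓ ⨆ j, R j ≤ R i := by
  rintro x ⟨hx, hxs⟩
  have h1 : (⨆ j, R j) ≤ R i ⊔ ⨆ (j) (_ : j ≠ i), R j := by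
    refine iSup_le fun j => ?_
    by_cases h : j = i
    · subst h; exact le_sup_left
    · exact le_sup_of_le_right (le_iSup₂_of_le j h le_rfl)
  obtain ⟨r, hr, s, hs, rfl⟩ := Submodule.mem_sup.mp (h1 hxs)
  have h2 : (⨆ (j) (_ : j ≠ i), R j) ≤ ⨆ (j) (_ : j ≠ i), E j :=
    iSup₂_mono fun j _ => hR j
  have h3 : s ∈ E i := by
    have := Submodule.sub_mem _ hx (hR i hr)
    simpa using this
  have h4 : s = 0 := by
    have := Submodule.disjoint_def.mp (hE i) s h3 (h2 hs)
    exact this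
  rw [h4, add_zero]
  exact hr

end Lattice

namespace WeilTheory

variable {k : Type u} [Field k] {K : Type v} [Field K] (W : WeilTheory.{u, v, w} k K)

lemma iSup_gr (X : SmProp k) : ⨆ i, W.gr X i = ⊤ := (W.internal X).submodule_iSup_eq_top

lemma indep_gr (X : SmProp k) : iSupIndep (W.gr X) := (W.internal X).submodule_iSupIndep

lemma homogeneous_induction {X : SmProp k} {p : W.H X → Prop} (h : ∀ j, ∀ x ∈ W.gr X j, p x)
    (h0 : p 0) (ha : ∀ x y, p x → p y → p (x + y)) (x : W.H X) : p x := by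
  have hx : x ∈ ⨆ i, W.gr X i := by rw [W.iSup_gr]; trivial
  exact Submodule.iSup_induction (motive := p) _ hx h h0 ha

/-- Poincaré duality. -/
noncomputable def pd (X : SmProp k) : W.H X ≃ₗ[K] Module.Dual K (W.H X) :=
  have hi : Function.Injective ((LinearMap.mul K (W.H X)).compr₂ (W.tr X)) := by
    rw [injective_iff_map_eq_zero]
    intro x hx
    exact W.duality X x fun y => by simpa using LinearMap.congr_fun hx y
  LinearEquiv.ofBijective ((LinearMap.mul K (W.H X)).compr₂ (W.tr X))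
    ⟨hi, (LinearMap.injective_iff_surjective_of_finrank_eq_finrank
      Subspace.dual_finrank_eq.symm).mp hi⟩

@[simp] lemma pd_apply {X : SmProp k} (x y : W.H X) : W.pd X x y = W.tr X (x * y) := rfl

lemma mem_gr_of_orth {X : SmProp k} {n m : ℕ} (hnm : n + m = 2 * X.dim) {y : W.H X}
    (h : ∀ j, j ≠ m → ∀ v ∈ W.gr X j, W.tr X (y * v) = 0) : y ∈ W.gr X n := by
  have h1 : y ∈ W.gr X n ⊔ ⨆ (i) (_ : i ≠ n), W.gr X i := by
    have : (⊤ : Submodule K (W.H X)) ≤ W.gr X n ⊔ ⨆ (i) (_ : i ≠ n), W.gr X i := by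
      rw [← W.iSup_gr]
      refine iSup_le fun j => ?_
      by_cases hj : j = n
      · subst hj; exact le_sup_left
      · exact le_sup_of_le_right (le_iSup₂_of_le j hj le_rfl)
    exact this trivial
  obtain ⟨a, ha, b, hb, rfl⟩ := Submodule.mem_sup.mp h1
  have hb0 : b = 0 := by
    refine W.duality X b fun v => ?_
    refine W.homogeneous_induction (p := fun v => W.tr X (b * v) = 0) ?_ (by simp)
      (fun x y hx hy => by rw [mul_add, map_add, hx, hy, add_zero]) v
    intro j v hv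
    by_cases hj : j = m
    · subst hj
      have : ∀ b' ∈ ⨆ (i) (_ : i ≠ n), W.gr X i, W.tr X (b' * v) = 0 := by
        intro b' hb'
        let L : W.H X →ₗ[K] K := (W.tr X) ∘ₗ (LinearMap.mulRight K v)
        have : (⨆ (i) (_ : i ≠ n), W.gr X i) ≤ LinearMap.ker L := by
          refine iSup₂_le fun i hi => fun z hz => ?_
          rw [LinearMap.mem_ker]
          exact W.tr_off X (i + j) _ (by omega) (W.mul_mem _ _ _ _ _ hz hv)
        exact LinearMap.mem_ker.mp (this hb')
      exact this b hb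
    · have e1 := h j hj v hv
      have e2 : W.tr X (a * v) = 0 :=
        W.tr_off X (n + j) _ (by omega) (W.mul_mem _ _ _ _ _ ha hv)
      rw [add_mul, map_add, e2, zero_add] at e1
      exact e1
  rw [hb0, add_zero]
  exact ha

/-- The isomorphism of `H X ⊗ H Y` with the homomorphisms from `H Y` to `H X`. -/
noncomputable def phi2 (X Y : SmProp k) : (W.H X ⊗[K] W.H Y) ≃ₗ[K] (W.H Y →ₗ[K] W.H X) :=
  (TensorProduct.comm K (W.H X) (W.H Y)) ≪≫ₗ
    (TensorProduct.congr (W.pd Y) (LinearEquiv.refl K (W.H X))) ≪≫ₗ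
    dualTensorHomEquiv K (W.H Y) (W.H X)

@[simp] lemma phi2_tmul {X Y : SmProp k} (x : W.H X) (y v : W.H Y) :
    W.phi2 X Y (x ⊗ₜ y) v = W.tr Y (y * v) • x := by
  simp [phi2]

lemma neg_one_pow_mul {X : SmProp k} (n : ℕ) (z : W.H X) :
    (-1 : W.H X) ^ n * z = ((-1 : K) ^ n) • z := by
  rcases Nat.even_or_odd n with h | h <;> simp [h.neg_one_pow]

/-- The Künneth map. -/
noncomputable def kapMap (X Y : SmProp k) : (W.H X ⊗[K] W.H Y) →ₗ[K] W.H (X.prod Y) :=
  TensorProduct.lift ((LinearMap.mul K (W.H (X.prod Y))).compl₁₂ (W.pull (X.fst Y)).toLinearMap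
    (W.pull (X.snd Y)).toLinearMap)

lemma kapMap_tmul {X Y : SmProp k} (x : W.H X) (y : W.H Y) :
    W.kapMap X Y (x ⊗ₜ y) = W.ext x y := rfl

/-- The trace of a product of exterior products. -/
lemma tr_kapMap_mul {X Y : SmProp k} (s : W.H X ⊗[K] W.H Y) {a b : ℕ} {x : W.H X} {v : W.H Y}
    (hx : x ∈ W.gr X a) (hv : v ∈ W.gr Y b) :
    W.tr (X.prod Y) (W.kapMap X Y s * W.ext x v) =
      (-1) ^ (a * b) * W.tr X (W.phi2 X Y s v * x) := by
  induction s with
  | zero => simp
  | add s s' hs hs' =>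
    simp only [map_add, add_mul, LinearMap.add_apply, mul_add, hs, hs']
  | tmul x' y' =>
    refine W.homogeneous_induction (p := fun y' => W.tr (X.prod Y)
      (W.kapMap X Y (x' ⊗ₜ y') * W.ext x v) =
        (-1) ^ (a * b) * W.tr X (W.phi2 X Y (x' ⊗ₜ y') v * x)) ?_ (by simp) ?_ y'
    · intro c y hy
      have e : W.kapMap X Y (x' ⊗ₜ y) * W.ext x v =
          ((-1 : K) ^ (c * a)) • (W.pull (X.fst Y) (x' * x) * W.pull (X.snd Y) (y * v)) := by
        rw [kapMap_tmul, ext, ext, map_mul, map_mul]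
        have := W.comm _ _ _ _ _ (W.pull_mem (X.snd Y) _ _ hy) (W.pull_mem (X.fst Y) _ _ hx)
        rw [neg_one_pow_mul] at this
        rw [mul_assoc, ← mul_assoc (W.pull (X.snd Y) y), this]
        simp only [mul_assoc, smul_mul_assoc, mul_smul_comm]
      have e' : W.tr (X.prod Y) (W.kapMap X Y (x' ⊗ₜ y) * W.ext x v) =
          (-1) ^ (c * a) * (W.tr X (x' * x) * W.tr Y (y * v)) := by
        rw [e, ← W.tr_prod, map_smul, smul_eq_mul]
      rw [e', phi2_tmul, smul_mul_assoc, map_smul, smul_eq_mul]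
      by_cases hcb : c + b = 2 * Y.dim
      · have : ((-1 : K)) ^ (c * a) = (-1) ^ (a * b) := by
          rw [neg_one_pow_eq_pow_mod_two, neg_one_pow_eq_pow_mod_two (n := a * b)]
          congr 1
          have h1 : c % 2 = b % 2 := by omega
          rw [Nat.mul_mod, h1, Nat.mul_mod a b, mul_comm]
        rw [this]; ring
      · have : W.tr Y (y * v) = 0 := W.tr_off Y (c + b) _ hcb (W.mul_mem _ _ _ _ _ hy hv)
        rw [this]; ring
    · intro y z hy hz
      simp only [TensorProduct.tmul_add, map_add, add_mul, LinearMap.add_apply, mul_add, hy, hz]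

lemma kapMap_injective (X Y : SmProp k) : Function.Injective (W.kapMap X Y) := by
  rw [injective_iff_map_eq_zero]
  intro s hs
  apply (W.phi2 X Y).injective
  rw [map_zero]
  ext v
  rw [LinearMap.zero_apply]
  refine W.homogeneous_induction (p := fun v => W.phi2 X Y s v = 0) ?_ (by simp)
    (fun x y hx hy => by rw [map_add, hx, hy, add_zero]) v
  intro b v hv
  refine W.duality X _ fun x => ?_
  refine W.homogeneous_induction (p := fun x => W.tr X (W.phi2 X Y s v * x) = 0) ?_ (by simp)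
    (fun x y hx hy => by rw [mul_add, map_add, hx, hy, add_zero]) x
  intro a x hx
  have h := W.tr_kapMap_mul s hx hv
  rw [hs, zero_mul, map_zero] at h
  exact (mul_eq_zero.mp h.symm).resolve_left (pow_ne_zero _ (neg_ne_zero.mpr one_ne_zero))

lemma kapMap_surjective (X Y : SmProp k) : Function.Surjective (W.kapMap X Y) := by
  intro z
  have h : Submodule.span K {z | ∃ (x : W.H X) (y : W.H Y), z =
      W.pull (X.fst Y) x * W.pull (X.snd Y) y} ≤ LinearMap.range (W.kapMap X Y) := by
    refine Submodule.span_le.mpr ?_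
    rintro _ ⟨x, y, rfl⟩
    exact ⟨x ⊗ₜ y, rfl⟩
  exact h (W.kunneth X Y z)

/-- The Künneth isomorphism. -/
noncomputable def kap (X Y : SmProp k) : (W.H X ⊗[K] W.H Y) ≃ₗ[K] W.H (X.prod Y) :=
  LinearEquiv.ofBijective (W.kapMap X Y) ⟨W.kapMap_injective X Y, W.kapMap_surjective X Y⟩

@[simp] lemma kap_tmul {X Y : SmProp k} (x : W.H X) (y : W.H Y) :
    W.kap X Y (x ⊗ₜ y) = W.ext x y := rfl

/-- The isomorphism of `H X ⊗ H X` with the endomorphisms of `H X`. -/
noncomputable def phi (X : SmProp k) : (W.H X ⊗[K] W.H X) ≃ₗ[K] (W.H X →ₗ[K] W.H X) :=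
  W.phi2 X X

@[simp] lemma phi_tmul {X : SmProp k} (x y v : W.H X) :
    W.phi X (x ⊗ₜ y) v = W.tr X (y * v) • x := W.phi2_tmul x y v

lemma phi_map {X : SmProp k} (f : W.H X →ₗ[K] W.H X) (s : W.H X ⊗[K] W.H X) (v : W.H X) :
    W.phi X (TensorProduct.map f LinearMap.id s) v = f (W.phi X s v) := by
  induction s with
  | zero => simp
  | tmul x y => simp
  | add a b ha hb => simp only [map_add, LinearMap.add_apply, ha, hb]

/-- The trace of a product of exterior products. -/
lemma tr_kap_mul {X : SmProp k} (s : W.H X ⊗[K] W.H X) {a b : ℕ} {x v : W.H X}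
    (hx : x ∈ W.gr X a) (hv : v ∈ W.gr X b) :
    W.tr (X.prod X) (W.kap X X s * W.ext x v) = (-1) ^ (a * b) * W.tr X (W.phi X s v * x) :=
  W.tr_kapMap_mul s hx hv

/-- The diagonal morphism. -/
noncomputable def dia (X : SmProp k) : X.obj ⟶ (X.prod X).obj := SmProp.lift (𝟙 _) (𝟙 _)

/-- The class of the diagonal. -/
noncomputable def del (X : SmProp k) : W.H (X.prod X) :=
  (W.pd (X.prod X)).symm ((W.tr X) ∘ₗ (W.pull (dia X)).toLinearMap)

lemma tr_del_mul (X : SmProp k) (z : W.H (X.prod X)) :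
    W.tr (X.prod X) (W.del X * z) = W.tr X (W.pull (dia X) z) :=
  LinearMap.congr_fun ((W.pd (X.prod X)).apply_symm_apply
    ((W.tr X) ∘ₗ (W.pull (dia X)).toLinearMap)) z

lemma prod_dim (X Y : SmProp k) : (X.prod Y).dim = X.dim + Y.dim := rfl

lemma del_mem (X : SmProp k) : W.del X ∈ W.gr (X.prod X) (2 * X.dim) :=
  W.mem_gr_of_orth (n := 2 * X.dim) (m := 2 * X.dim) (by rw [prod_dim]; ring)
    fun j hj v hv => by
      rw [tr_del_mul]
      exact W.tr_off X j _ hj (W.pull_mem _ _ _ hv)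

lemma alg_del (X : SmProp k) : W.Alg (X.prod X) X.dim (W.del X) :=
  Alg.push (dia X) (Alg.one X) (W.del_mem X) (by rw [prod_dim]; omega) fun z => by
    rw [tr_del_mul, one_mul]

lemma isPush_kap {X : SmProp k} (s : W.H X ⊗[K] W.H X) (v : W.H X) :
    W.IsPush (X.fst X) (W.kap X X s * W.pull (X.snd X) v) (W.phi X s v) := by
  intro z
  refine W.homogeneous_induction (p := fun v => W.tr X (W.phi X s v * z) =
    W.tr (X.prod X) (W.kap X X s * W.pull (X.snd X) v * W.pull (X.fst X) z)) ?_ (by simp)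
    (fun x y hx hy => by
      simp only [map_add, add_mul, mul_add, hx, hy]) v
  intro b v hv
  refine W.homogeneous_induction (p := fun z => W.tr X (W.phi X s v * z) =
    W.tr (X.prod X) (W.kap X X s * W.pull (X.snd X) v * W.pull (X.fst X) z)) ?_ (by simp)
    (fun x y hx hy => by
      simp only [map_add, mul_add, hx, hy]) z
  intro a z hz
  have h := W.tr_kap_mul s hz hv
  have h2 := W.comm _ _ _ _ _ (W.pull_mem (X.snd X) _ _ hv) (W.pull_mem (X.fst X) _ _ hz)
  rw [neg_one_pow_mul] at h2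
  rw [mul_assoc, h2, mul_smul_comm, map_smul, smul_eq_mul]
  change _ = _ * W.tr (X.prod X) (W.kap X X s * W.ext z v)
  rw [h, ← mul_assoc, mul_comm b a, ← mul_pow, neg_one_mul, neg_neg, one_pow, one_mul]

variable {W} in
lemma IsPush.unique {T Z : SmProp k} {f : T.obj ⟶ Z.obj} {t : W.H T} {x y : W.H Z}
    (h : W.IsPush f t x) (h' : W.IsPush f t y) : x = y := by
  rw [← sub_eq_zero]
  refine W.duality Z _ fun z => ?_
  rw [sub_mul, map_sub, h z, h' z, sub_self]

/-- The diagonal induces the identity. -/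
lemma isPush_del (X : SmProp k) (v : W.H X) :
    W.IsPush (X.fst X) (W.del X * W.pull (X.snd X) v) v := by
  intro z
  have h : W.del X * W.pull (X.snd X) v * W.pull (X.fst X) z =
      W.del X * (W.pull (X.snd X) v * W.pull (X.fst X) z) := mul_assoc _ _ _
  rw [h, tr_del_mul, map_mul (W.pull (dia X)), ← W.pull_comp, ← W.pull_comp, dia,
    SmProp.lift_fst, SmProp.lift_snd, W.pull_id, W.pull_id]

end WeilTheory

end Pool.Agent.TP
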