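import Pool.Agent.TP.Diag

/-!
# The eigencomponents of the diagonal are algebraic
-/

set_option autoImplicit false

universe u v w

open CategoryTheory CategoryTheory.Limits AlgebraicGeometry
open scoped TensorProduct

namespace Pool.Agent.TP

namespace WeilTheory

variable {k : Type u} [Field k] {K : Type v} [Field K] (W : WeilTheory.{u, v, w} k K)

lemma kap_map {X Y X' Y' : SmProp k} (f : X'.obj ⟶ X.obj) (g : Y'.obj ⟶ Y.obj)
    (s : W.H X ⊗[K] W.H Y) :
    W.kap X' Y' (TensorProduct.map (W.pull f).toLinearMap (W.pull g).toLinearMap s) =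
      W.pull (SmProp.lift (X'.fst Y' ≫ f) (X'.snd Y' ≫ g)) (W.kap X Y s) := by
  induction s with
  | zero => simp
  | add s s' hs hs' => simp only [map_add, hs, hs']
  | tmul x y =>
    rw [TensorProduct.map_tmul, kap_tmul, kap_tmul, pull_ext, W.pull_comp, W.pull_comp]
    rfl

lemma pull_id_toLinearMap (X : SmProp k) :
    (W.pull (𝟙 X.obj)).toLinearMap = LinearMap.id := by
  ext x
  exact W.pull_id X x

variable [Finite k]

lemma pull_frob_ext {X Y : SmProp k} {F : X.obj ⟶ X.obj} {G : Y.obj ⟶ Y.obj}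
    {P : (X.prod Y).obj ⟶ (X.prod Y).obj} (hF : IsAbsFrob (Nat.card k) F.left)
    (hG : IsAbsFrob (Nat.card k) G.left) (hP : IsAbsFrob (Nat.card k) P.left) (x : W.H X)
    (y : W.H Y) : W.pull P (W.ext x y) = W.ext (W.pull F x) (W.pull G y) := by
  rw [ext, ext, map_mul, ← W.pull_comp, ← W.pull_comp, ← W.pull_comp, ← W.pull_comp,
    SmProp.frob_comm hP hF, SmProp.frob_comm hP hG]

variable [CharZero K] [IsAlgClosed K]

omit [Finite k] [CharZero K] in
/-- The generalised eigenspaces of the inverse image under an endomorphism are graded. -/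
lemma gen_le_iSup {X : SmProp k} (F : X.obj ⟶ X.obj) (z : K) :
    Module.End.maxGenEigenspace (W.pull F).toLinearMap z ≤
      ⨆ l, W.gr X l ⊓ Module.End.maxGenEigenspace (W.pull F).toLinearMap z := by
  have := W.finite X
  have h1 : ∀ l, W.gr X l =
      ⨆ μ, W.gr X l ⊓ Module.End.maxGenEigenspace (W.pull F).toLinearMap μ := by
    intro l
    have h := Submodule.inf_iSup_genEigenspace (p := W.gr X l)
      (f := (W.pull F).toLinearMap) (fun x hx => W.pull_mem _ _ _ hx) ⊤
    have htop : ⨆ μ, Module.End.maxGenEigenspace (W.pull F).toLinearMap μ = ⊤ :=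
      Module.End.iSup_maxGenEigenspace_eq_top _
    change (W.gr X l ⊓ ⨆ μ, Module.End.maxGenEigenspace (W.pull F).toLinearMap μ) =
      ⨆ μ, W.gr X l ⊓ Module.End.maxGenEigenspace (W.pull F).toLinearMap μ at h
    rw [htop, inf_top_eq] at h
    exact h
  have h2 : ⨆ μ, ⨆ l, W.gr X l ⊓ Module.End.maxGenEigenspace (W.pull F).toLinearMap μ = ⊤ := by
    rw [iSup_comm, ← W.iSup_gr X]
    exact iSup_congr fun l => (h1 l).symm
  have h3 := inf_iSup_le_of_indep
    (Module.End.independent_maxGenEigenspace (W.pull F).toLinearMap)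
    (R := fun μ => ⨆ l, W.gr X l ⊓ Module.End.maxGenEigenspace (W.pull F).toLinearMap μ)
    (fun μ => iSup_le fun l => inf_le_right) z
  rwa [h2, inf_top_eq] at h3

omit [Finite k] [CharZero K] [IsAlgClosed K] in
lemma mem_gr_of_ext {X : SmProp k} {j : ℕ} {e y : W.H X} (he : e ∈ W.gr X j) (he0 : e ≠ 0)
    (h : W.ext e y ∈ W.gr (X.prod X) (2 * j)) : y ∈ W.gr X j := by
  by_contra hcon
  -- a class dual to `e`
  obtain ⟨a, u, hu, heu⟩ : ∃ a, ∃ u ∈ W.gr X a, W.tr X (e * u) ≠ 0 := by
    by_contra hno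
    simp only [not_exists, not_and, not_not] at hno
    apply he0
    refine W.duality X e fun u => ?_
    exact W.homogeneous_induction (p := fun u => W.tr X (e * u) = 0) hno (by simp)
      (fun x y hx hy => by rw [mul_add, map_add, hx, hy, add_zero]) u
  have haj : j + a = 2 * X.dim := by
    by_contra hne
    exact heu (W.tr_off X (j + a) _ hne (W.mul_mem _ _ _ _ _ he hu))
  apply hcon
  refine W.mem_gr_of_orth (m := 2 * X.dim - j) (by omega) fun l hl v hv => ?_
  have h1 := W.tr_kap_mul (e ⊗ₜ y) hu hv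
  rw [kap_tmul, phi_tmul, smul_mul_assoc, map_smul, smul_eq_mul,
    W.tr_off (X.prod X) (2 * j + (a + l)) _ (by rw [prod_dim]; omega)
      (W.mul_mem _ _ _ _ _ h (W.ext_mem hu hv))] at h1
  rcases mul_eq_zero.mp h1.symm with h2 | h2
  · exact absurd h2 (pow_ne_zero _ (neg_ne_zero.mpr one_ne_zero))
  · exact (mul_eq_zero.mp h2).resolve_right heu

/-- A class `e` of degree `j` which spans its generalised eigenspace of Frobenius and is the image
of some class under an algebraic correspondence of codimension `j` has an algebraic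
exterior product with a nonzero class in the dual eigenspace. -/
lemma exists_partner {X : SmProp k} {j : ℕ} {d : W.H (X.prod X)} (hd : W.Alg (X.prod X) j d)
    {F : X.obj ⟶ X.obj} (hF : IsAbsFrob (Nat.card k) F.left) {z : K} {e : W.H X}
    (he1 : e ∈ W.gr X j) (he2 : e ∈ Module.End.maxGenEigenspace (W.pull F).toLinearMap z)
    (he0 : e ≠ 0)
    (h1 : ∀ l, ∀ x ∈ W.gr X l, x ∈ Module.End.maxGenEigenspace (W.pull F).toLinearMap z →
      ∃ c : K, x = c • e)
    {v : W.H X} (hv : W.IsPush (X.fst X) (d * W.pull (X.snd X) v) e) :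
    z ≠ 0 ∧ ∃ y ∈ W.gr X j, y ≠ 0 ∧ W.pull F y = ((Nat.card k : K) ^ j / z) • y ∧
      W.Alg (X.prod X) j (W.ext e y) := by
  have := W.finite X
  obtain ⟨t, rfl⟩ := (W.kap X X).surjective d
  have hte : W.phi X t v = e := (W.isPush_kap t v).unique hv
  -- the generalised eigenspace is the line spanned by `e`
  have hline : ∀ x ∈ Module.End.maxGenEigenspace (W.pull F).toLinearMap z,
      ∃ c : K, x = c • e := by
    intro x hx
    have hx' := W.gen_le_iSup F z hx
    have hle : (⨆ l, W.gr X l ⊓ Module.End.maxGenEigenspace (W.pull F).toLinearMap z) ≤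
        Submodule.span K {e} := by
      refine iSup_le fun l => ?_
      rintro y ⟨hy1, hy2⟩
      obtain ⟨c, rfl⟩ := h1 l y hy1 hy2
      exact Submodule.smul_mem _ c (Submodule.mem_span_singleton_self e)
    obtain ⟨c, hc⟩ := Submodule.mem_span_singleton.mp (hle hx')
    exact ⟨c, hc.symm⟩
  -- the operator `F ⊗ 1`
  let N : W.H X ⊗[K] W.H X →ₗ[K] W.H X ⊗[K] W.H X :=
    TensorProduct.map (W.pull F).toLinearMap LinearMap.id
  let A : Submodule K (W.H X ⊗[K] W.H X) :=
    (W.algSub (X.prod X) j).comap (W.kap X X).toLinearMap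
  have hN : ∀ s ∈ A, N s ∈ A := by
    intro s hs1
    have h := W.kap_map F (𝟙 X.obj) s
    rw [pull_id_toLinearMap] at h
    change W.Alg _ _ (W.kap X X (N s))
    rw [h]
    exact Alg.pull _ hs1
  -- evaluation at `v`
  let ev : W.H X ⊗[K] W.H X →ₗ[K] W.H X := (LinearMap.applyₗ v) ∘ₗ (W.phi X).toLinearMap
  have hev : ∀ s, ev s = W.phi X s v := fun s => rfl
  have hNphi : ∀ (μ : K) (m : ℕ) (s : W.H X ⊗[K] W.H X) (v : W.H X),
      W.phi X (((N - μ • (1 : Module.End K (W.H X ⊗[K] W.H X))) ^ m) s) v =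
        (((W.pull F).toLinearMap - μ • (1 : Module.End K (W.H X))) ^ m) (W.phi X s v) := by
    intro μ m
    induction m with
    | zero => intro s v; simp
    | succ m ih =>
      intro s v
      rw [pow_succ, pow_succ, Module.End.mul_apply, Module.End.mul_apply, ih]
      congr 1
      have := W.phi_map (W.pull F).toLinearMap s v
      simp only [LinearMap.sub_apply, LinearMap.smul_apply, Module.End.one_apply, map_sub,
        map_smul]
      rw [this]
  have hgen : ∀ (μ : K) s, s ∈ Module.End.maxGenEigenspace N μ → ∀ v,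
      W.phi X s v ∈ Module.End.maxGenEigenspace (W.pull F).toLinearMap μ := by
    intro μ s hs v
    rw [Module.End.mem_maxGenEigenspace] at hs ⊢
    obtain ⟨m, hm⟩ := hs
    exact ⟨m, by rw [← hNphi, hm]; simp⟩
  have htA' : t ∈ ⨆ μ, A ⊓ Module.End.maxGenEigenspace N μ := by
    have h := Submodule.inf_iSup_genEigenspace (p := A) (f := N) hN ⊤
    have htop : ⨆ μ, Module.End.maxGenEigenspace N μ = ⊤ :=
      Module.End.iSup_maxGenEigenspace_eq_top N
    change (A ⊓ ⨆ μ, Module.End.maxGenEigenspace N μ) =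
      ⨆ μ, A ⊓ Module.End.maxGenEigenspace N μ at h
    rw [← h, htop, inf_top_eq]
    exact hd
  have heP : e ∈ ⨆ μ, (A ⊓ Module.End.maxGenEigenspace N μ).map ev := by
    rw [← Submodule.map_iSup]
    exact ⟨t, htA', hte⟩
  have heP' : e ∈ (A ⊓ Module.End.maxGenEigenspace N z).map ev := by
    refine inf_iSup_le_of_indep
      (Module.End.independent_maxGenEigenspace (W.pull F).toLinearMap)
      (R := fun μ => (A ⊓ Module.End.maxGenEigenspace N μ).map ev) ?_ z ⟨he2, heP⟩
    rintro μ _ ⟨s, ⟨_, hs⟩, rfl⟩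
    exact hgen μ s hs v
  obtain ⟨s, ⟨hsA, hsN⟩, hse⟩ := heP'
  rw [hev] at hse
  -- `s = e ⊗ y`
  have hc : ∀ v, ∃ c : K, W.phi X s v = c • e := fun v => hline _ (hgen z s hsN v)
  obtain ⟨l, hl⟩ : ∃ l : Module.Dual K (W.H X), l e ≠ 0 := by
    by_contra hcon
    simp only [not_exists, ne_eq, not_not] at hcon
    exact he0 ((Module.forall_dual_apply_eq_zero_iff K e).mp hcon)
  let lam : Module.Dual K (W.H X) := (l e)⁻¹ • (l ∘ₗ W.phi X s)
  have hlam : ∀ v, W.phi X s v = lam v • e := by
    intro v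
    obtain ⟨c, hcv⟩ := hc v
    have : lam v = c := by
      simp only [lam, LinearMap.smul_apply, LinearMap.comp_apply, hcv, map_smul, smul_eq_mul]
      field_simp
    rw [this, hcv]
  let y : W.H X := (W.pd X).symm lam
  have hy : ∀ v, W.tr X (y * v) = lam v := fun v =>
    LinearMap.congr_fun ((W.pd X).apply_symm_apply lam) v
  have hs : s = e ⊗ₜ y := by
    apply (W.phi X).injective
    ext v
    rw [hlam, phi_tmul, hy]
  have hy0 : y ≠ 0 := by
    intro h
    have h2 := hlam v
    rw [hse, ← hy v, h, zero_mul, map_zero, zero_smul] at h2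
    exact he0 h2
  have halg : W.Alg (X.prod X) j (W.ext e y) := by
    have : W.Alg (X.prod X) j (W.kap X X s) := hsA
    rwa [hs, kap_tmul] at this
  have hymem : y ∈ W.gr X j := W.mem_gr_of_ext he1 he0 halg.mem
  -- Frobenius
  obtain ⟨c, hcF⟩ : ∃ c : K, W.pull F e = c • e :=
    hline _ (Module.End.mapsTo_maxGenEigenspace_of_comm (Commute.refl _) z he2)
  have hcz : c = z := by
    have hm := he2
    rw [Module.End.mem_maxGenEigenspace] at hm
    obtain ⟨m, hm⟩ := hm
    have : ∀ n : ℕ, (((W.pull F).toLinearMap - z • (1 : Module.End K (W.H X))) ^ n) e =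
        (c - z) ^ n • e := by
      intro n
      induction n with
      | zero => simp
      | succ n ih =>
        rw [pow_succ', Module.End.mul_apply, ih]
        simp only [map_smul, LinearMap.sub_apply, LinearMap.smul_apply, Module.End.one_apply,
          AlgHom.toLinearMap_apply, hcF]
        rw [← sub_smul, smul_smul, pow_succ]
    rw [this] at hm
    have h2 := (smul_eq_zero.mp hm).resolve_right he0
    exact sub_eq_zero.mp (eq_zero_of_pow_eq_zero h2)
  rw [hcz] at hcF
  have hz : z ≠ 0 := by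
    intro h
    rw [h, zero_smul] at hcF
    exact he0 (W.pull_frob_injective hF (by rw [hcF, map_zero]))
  obtain ⟨P, hP⟩ := (X.prod X).exists_frob
  have hE := halg.frob hP
  rw [W.pull_frob_ext hF hF hP, hcF] at hE
  have hE' : e ⊗ₜ[K] (z • W.pull F y - (Nat.card k : K) ^ j • y) = 0 := by
    apply (W.kap X X).injective
    rw [kap_tmul, map_zero]
    have e1 : W.ext e (z • W.pull F y - (Nat.card k : K) ^ j • y) =
        W.ext (z • e) (W.pull F y) - (Nat.card k : K) ^ j • W.ext e y := by
      simp [ext, mul_sub]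
    rw [e1, hE, sub_self]
  have hE'' : z • W.pull F y - (Nat.card k : K) ^ j • y = 0 := by
    refine W.duality X _ fun v => ?_
    have h := congrArg (fun r => W.phi X r v) hE'
    simp only [phi_tmul, map_zero, LinearMap.zero_apply] at h
    exact (smul_eq_zero.mp h).resolve_right he0
  refine ⟨hz, y, hymem, hy0, ?_, halg⟩
  rw [sub_eq_zero] at hE''
  rw [div_eq_inv_mul, mul_smul, ← hE'', smul_smul, inv_mul_cancel₀ hz, one_smul]

end WeilTheory

end Pool.Agent.TP
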