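import Pool.Agent.TP.Sch

/-!
# Existence, uniqueness and naturality of the absolute Frobenius
-/

set_option autoImplicit false

universe u

open CategoryTheory CategoryTheory.Limits AlgebraicGeometry

namespace Pool.Agent.TP

section

variable {k : Type u} [Field k] [Finite k]

lemma exists_powHom (R : CommRingCat.{u}) (ψ : k →+* R) :
    ∃ φ : R ⟶ R, ∀ r : R, φ.hom r = r ^ Nat.card k := by
  rcases subsingleton_or_nontrivial R with h | h
  · exact ⟨𝟙 R, fun r => Subsingleton.elim _ _⟩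
  · have := Fintype.ofFinite k
    obtain ⟨p, hp⟩ := CharP.exists k
    obtain ⟨n, hpp, hn⟩ := FiniteField.card k p
    have hR : CharP R p := charP_of_injective_ringHom ψ.injective p
    have : Fact p.Prime := ⟨hpp⟩
    refine ⟨CommRingCat.ofHom (iterateFrobenius R p n), fun r => ?_⟩
    rw [Nat.card_eq_fintype_card, hn]
    simp [iterateFrobenius_def]

lemma pow_comm {R S : CommRingCat.{u}} {q : ℕ} {φ : R ⟶ R} {χ : S ⟶ S}
    (hφ : ∀ r : R, φ.hom r = r ^ q) (hχ : ∀ r : S, χ.hom r = r ^ q) (a : Spec S ⟶ Spec R) :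
    a ≫ Spec.map φ = Spec.map χ ≫ a := by
  obtain ⟨ψ, rfl⟩ := Spec.map_surjective a
  rw [← Spec.map_comp, ← Spec.map_comp]
  congr 1
  ext r
  simp [hφ, hχ]

lemma ext_of_affine {X Y : Scheme.{u}} {f g : X ⟶ Y}
    (h : ∀ (R : CommRingCat.{u}) (x : Spec R ⟶ X), x ≫ f = x ≫ g) : f = g :=
  X.affineCover.hom_ext f g fun i => h _ (X.affineCover.f i)

lemma exists_powHom_of {R : CommRingCat.{u}} (s : Spec R ⟶ Spec (.of k)) :
    ∃ φ : R ⟶ R, ∀ r : R, φ.hom r = r ^ Nat.card k := by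
  obtain ⟨ψ, rfl⟩ := Spec.map_surjective s
  exact exists_powHom R ψ.hom

lemma IsAbsFrob.comm {X Y : Scheme.{u}} (s : X ⟶ Spec (.of k)) {f : X ⟶ X} {g : Y ⟶ Y}
    (hf : IsAbsFrob (Nat.card k) f) (hg : IsAbsFrob (Nat.card k) g) (h : X ⟶ Y) :
    f ≫ h = h ≫ g := by
  refine ext_of_affine fun R x => ?_
  obtain ⟨φ, hφ⟩ := exists_powHom_of (x ≫ s)
  rw [← Category.assoc, hf R φ hφ x, ← Category.assoc, hg R φ hφ, Category.assoc]

lemma isAbsFrob_id : IsAbsFrob (Nat.card k) (𝟙 (Spec (.of k) : Scheme.{u})) := by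
  intro R φ hφ x
  obtain ⟨ψ, rfl⟩ := Spec.map_surjective x
  rw [Category.comp_id, ← Spec.map_comp]
  congr 1
  ext r
  have := Fintype.ofFinite k
  have h : (r : k) ^ Nat.card k = r := by
    rw [Nat.card_eq_fintype_card]
    exact FiniteField.pow_card (r : k)
  simp only [CommRingCat.hom_comp, RingHom.comp_apply, hφ]
  rw [← map_pow]
  exact congrArg _ h.symm

lemma glue_compat {X P : Scheme.{u}} (s : X ⟶ Spec (.of k)) {R T : CommRingCat.{u}}
    (a : Spec R ⟶ X) (b : Spec T ⟶ X) (p : P ⟶ Spec R) (q : P ⟶ Spec T)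
    (h : p ≫ a = q ≫ b) (φ : R ⟶ R) (hφ : ∀ r : R, φ.hom r = r ^ Nat.card k)
    (ψ : T ⟶ T) (hψ : ∀ r : T, ψ.hom r = r ^ Nat.card k) :
    p ≫ Spec.map φ ≫ a = q ≫ Spec.map ψ ≫ b := by
  refine ext_of_affine fun S x => ?_
  obtain ⟨χ, hχ⟩ := exists_powHom_of (x ≫ p ≫ a ≫ s)
  have h1 := pow_comm hφ hχ (x ≫ p)
  have h2 := pow_comm hψ hχ (x ≫ q)
  calc x ≫ p ≫ Spec.map φ ≫ a = ((x ≫ p) ≫ Spec.map φ) ≫ a := by simp only [Category.assoc]
    _ = Spec.map χ ≫ x ≫ p ≫ a := by rw [h1]; simp only [Category.assoc]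
    _ = Spec.map χ ≫ x ≫ q ≫ b := by rw [h]
    _ = ((x ≫ q) ≫ Spec.map ψ) ≫ b := by rw [h2]; simp only [Category.assoc]
    _ = x ≫ q ≫ Spec.map ψ ≫ b := by simp only [Category.assoc]

lemma glue_frob {X P : Scheme.{u}} (s : X ⟶ Spec (.of k)) {R T : CommRingCat.{u}}
    (f : X ⟶ X) (x : Spec R ⟶ X) (b : Spec T ⟶ X) (p : P ⟶ Spec R) (q : P ⟶ Spec T)
    (h : p ≫ x = q ≫ b) (φ : R ⟶ R) (hφ : ∀ r : R, φ.hom r = r ^ Nat.card k)
    (ψ : T ⟶ T) (hψ : ∀ r : T, ψ.hom r = r ^ Nat.card k) (hb : b ≫ f = Spec.map ψ ≫ b) :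
    p ≫ x ≫ f = p ≫ Spec.map φ ≫ x := by
  rw [glue_compat s x b p q h φ hφ ψ hψ, ← hb, ← Category.assoc, h, Category.assoc]

lemma exists_absFrob {X : Scheme.{u}} (s : X ⟶ Spec (.of k)) :
    ∃ f : X ⟶ X, IsAbsFrob (Nat.card k) f := by
  choose φ hφ using fun i => exists_powHom_of (X.affineCover.f i ≫ s)
  let f : X ⟶ X := X.affineCover.glueMorphisms
    (fun i => Spec.map (φ i) ≫ X.affineCover.f i)
    (fun i j => glue_compat s _ _ _ _ pullback.condition _ (hφ i) _ (hφ j))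
  have hf : ∀ i, X.affineCover.f i ≫ f = Spec.map (φ i) ≫ X.affineCover.f i := fun i =>
    X.affineCover.ι_glueMorphisms _ _ i
  refine ⟨f, fun R ψ hψ x => ?_⟩
  refine Scheme.Cover.hom_ext (X.affineCover.pullback₁ x) _ _ fun i => ?_
  exact glue_frob s f x (X.affineCover.f i) _ _ pullback.condition ψ hψ (φ i) (hφ i) (hf i)

end

/-- The absolute Frobenius of a smooth proper scheme over a finite field. -/
lemma SmProp.exists_frob {k : Type u} [Field k] [Finite k] (X : SmProp k) :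
    ∃ F : X.obj ⟶ X.obj, IsAbsFrob (Nat.card k) F.left := by
  obtain ⟨f, hf⟩ := exists_absFrob X.obj.hom
  refine ⟨Over.homMk f ?_, hf⟩
  exact (hf.comm X.obj.hom isAbsFrob_id X.obj.hom).trans (Category.comp_id _)

lemma SmProp.frob_comm {k : Type u} [Field k] [Finite k] {X Y : SmProp k}
    {F : X.obj ⟶ X.obj} {G : Y.obj ⟶ Y.obj} (hF : IsAbsFrob (Nat.card k) F.left)
    (hG : IsAbsFrob (Nat.card k) G.left) (h : X.obj ⟶ Y.obj) : F ≫ h = h ≫ G := by
  ext1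
  exact hF.comm X.obj.hom hG h.left

end Pool.Agent.TP
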