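import Pool.Agent.TP.Eigen

/-!
# The Tate conjecture for products of varieties with neat Frobenius spectrum
-/

set_option autoImplicit false

universe u v w x

open CategoryTheory CategoryTheory.Limits AlgebraicGeometry
open scoped TensorProduct

namespace Pool.Agent.TP

section GenEig

variable {K A : Type*} [Field K] [Ring A] [Algebra K A]

lemma genEig_mul_aux (φ : A →ₐ[K] A) (a b : K) : ∀ (n m l : ℕ), m + l = n → ∀ x y : A,
    ((φ.toLinearMap - a • (1 : Module.End K A)) ^ m) x = 0 →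
    ((φ.toLinearMap - b • (1 : Module.End K A)) ^ l) y = 0 →
    ((φ.toLinearMap - (a * b) • (1 : Module.End K A)) ^ n) (x * y) = 0 := by
  intro n
  induction n with
  | zero =>
    intro m l h x y hx hy
    have hm : m = 0 := by omega
    subst hm
    have : x = 0 := by simpa using hx
    simp [this]
  | succ n ih =>
    intro m l h x y hx hy
    rcases Nat.eq_zero_or_pos m with hm | hm
    · subst hm
      have : x = 0 := by simpa using hx
      simp [this]
    rcases Nat.eq_zero_or_pos l with hl | hl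
    · subst hl
      have : y = 0 := by simpa using hy
      simp [this]
    obtain ⟨m, rfl⟩ := Nat.exists_eq_succ_of_ne_zero hm.ne'
    obtain ⟨l, rfl⟩ := Nat.exists_eq_succ_of_ne_zero hl.ne'
    have e : (φ.toLinearMap - (a * b) • (1 : Module.End K A)) (x * y) =
        ((φ.toLinearMap - a • (1 : Module.End K A)) x) * φ y +
          a • (x * ((φ.toLinearMap - b • (1 : Module.End K A)) y)) := by
      simp only [LinearMap.sub_apply, AlgHom.toLinearMap_apply, LinearMap.smul_apply,
        Module.End.one_apply, map_mul, sub_mul, mul_sub, smul_mul_assoc, mul_smul_comm, smul_sub,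
        smul_smul]
      abel
    rw [pow_succ, Module.End.mul_apply, e, map_add, map_smul]
    have h1 : ((φ.toLinearMap - b • (1 : Module.End K A)) ^ (l + 1)) (φ y) = 0 := by
      have hc : Commute (φ.toLinearMap : Module.End K A)
          ((φ.toLinearMap - b • (1 : Module.End K A)) ^ (l + 1)) := by
        refine Commute.pow_right ?_ _
        refine Commute.sub_right (Commute.refl _) ?_
        exact (Commute.one_right _).smul_right _
      have := congrArg (fun f : Module.End K A => f y) hc.eq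
      simp only [Module.End.mul_apply, AlgHom.toLinearMap_apply] at this
      rw [← this, hy, map_zero]
    have h2 : ((φ.toLinearMap - a • (1 : Module.End K A)) ^ m)
        ((φ.toLinearMap - a • (1 : Module.End K A)) x) = 0 := by
      rw [← Module.End.mul_apply, ← pow_succ]
      exact hx
    have h3 : ((φ.toLinearMap - b • (1 : Module.End K A)) ^ l)
        ((φ.toLinearMap - b • (1 : Module.End K A)) y) = 0 := by
      rw [← Module.End.mul_apply, ← pow_succ]
      exact hy
    rw [ih m (l + 1) (by omega) _ _ h2 h1, ih (m + 1) l (by omega) _ _ hx h3, smul_zero, add_zero]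

lemma genEig_mul (φ : A →ₐ[K] A) {a b : K} {x y : A}
    (hx : x ∈ Module.End.maxGenEigenspace φ.toLinearMap a)
    (hy : y ∈ Module.End.maxGenEigenspace φ.toLinearMap b) :
    x * y ∈ Module.End.maxGenEigenspace φ.toLinearMap (a * b) := by
  rw [Module.End.mem_maxGenEigenspace] at hx hy ⊢
  obtain ⟨m, hm⟩ := hx
  obtain ⟨l, hl⟩ := hy
  exact ⟨m + l, genEig_mul_aux φ a b (m + l) m l rfl x y hm hl⟩

lemma genEig_one (φ : A →ₐ[K] A) : (1 : A) ∈ Module.End.maxGenEigenspace φ.toLinearMap 1 := by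
  rw [Module.End.mem_maxGenEigenspace]
  exact ⟨1, by simp⟩

end GenEig

namespace WeilTheory

variable {k : Type u} [Field k] {K : Type v} [Field K] (W : WeilTheory.{u, v, w} k K)

lemma perm_prod {Z : SmProp k} {l l' : List (W.H Z)} (h : l.Perm l')
    (hl : ∀ x ∈ l, ∃ j, x ∈ W.gr Z j) : ∃ c : K, l.prod = c • l'.prod := by
  induction h with
  | nil => exact ⟨1, by simp⟩
  | cons x h ih =>
    obtain ⟨c, hc⟩ := ih fun y hy => hl y (List.mem_cons_of_mem _ hy)
    exact ⟨c, by rw [List.prod_cons, List.prod_cons, hc, mul_smul_comm]⟩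
  | swap x y l =>
    obtain ⟨i, hi⟩ := hl x (by simp)
    obtain ⟨j, hj⟩ := hl y (by simp)
    refine ⟨(-1) ^ (j * i), ?_⟩
    rw [List.prod_cons, List.prod_cons, List.prod_cons, List.prod_cons, ← mul_assoc,
      W.comm _ _ _ _ _ hj hi, neg_one_pow_mul, smul_mul_assoc, mul_assoc]
  | trans h1 h2 ih1 ih2 =>
    obtain ⟨c, hc⟩ := ih1 hl
    obtain ⟨d, hd⟩ := ih2 fun x hx => hl x (h1.mem_iff.mpr hx)
    exact ⟨c * d, by rw [hc, hd, smul_smul]⟩

variable {W} in
lemma Alg.swap {X : SmProp k} {i a b : ℕ} {x y : W.H X} (hx : x ∈ W.gr X a) (hy : y ∈ W.gr X b)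
    (h : W.Alg (X.prod X) i (W.ext x y)) : W.Alg (X.prod X) i (W.ext y x) := by
  have h1 := Alg.pull (SmProp.lift (X.snd X) (X.fst X)) h
  rw [pull_ext, W.comm _ _ _ _ _ (W.pull_mem _ _ _ hx) (W.pull_mem _ _ _ hy),
    neg_one_pow_mul] at h1
  have h2 := Alg.smul ((-1) ^ (a * b)) h1
  rw [smul_smul, ← mul_pow] at h2
  have h3 : W.Alg (X.prod X) i (W.pull (X.fst X) y * W.pull (X.snd X) x) := by
    simpa using h2
  exact h3

end WeilTheory

/-- A class on `Z` pulled back from one of the `X a`. -/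
structure Fac {k : Type u} [Field k] {K : Type v} [Field K] (W : WeilTheory.{u, v, w} k K)
    {ι : Type x} (X : ι → SmProp k) (Z : SmProp k) where
  a : ι
  pr : Z.obj ⟶ (X a).obj
  j : ℕ
  z : K
  h : W.H (X a)

section Main

variable {k : Type u} [Field k] {K : Type v} [Field K] {W : WeilTheory.{u, v, w} k K}
  {ι : Type x} {X : ι → SmProp k} {dg : ι → ℕ}

namespace Fac

/-- the class on `Z` -/
def val {Z : SmProp k} (f : Fac W X Z) : W.H Z := W.pull f.pr f.h

/-- algebraic factors -/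
def IsA {Z : SmProp k} (f : Fac W X Z) : Prop :=
  ∃ c, f.j = 2 * c ∧ f.z = (Nat.card k : K) ^ c ∧ W.Alg (X f.a) c f.h

/-- the other factors -/
def IsB (dg : ι → ℕ) (F : ∀ a, (X a).obj ⟶ (X a).obj) {Z : SmProp k} (f : Fac W X Z) : Prop :=
  f.j = dg f.a ∧ f.h ∈ W.eig (F f.a) (dg f.a) f.z ∧
    W.eig (F f.a) (dg f.a) f.z ≠ ⊥ ∧ ∀ i, dg f.a = 2 * i → f.z ≠ (Nat.card k : K) ^ i

/-- all factors -/
def Good (dg : ι → ℕ) (F : ∀ a, (X a).obj ⟶ (X a).obj) {Z : SmProp k} (f : Fac W X Z) : Prop :=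
  f.IsA ∨ f.IsB dg F

/-- the index of a factor -/
def key {Z : SmProp k} (f : Fac W X Z) : ι × K := (f.a, f.z)

lemma IsA.mem {Z : SmProp k} {f : Fac W X Z} (h : f.IsA) : f.h ∈ W.gr (X f.a) f.j := by
  obtain ⟨c, hj, _, hc⟩ := h
  rw [hj]; exact hc.mem

lemma IsB.mem {F : ∀ a, (X a).obj ⟶ (X a).obj} {Z : SmProp k} {f : Fac W X Z}
    (h : f.IsB dg F) : f.h ∈ W.gr (X f.a) f.j := by
  rw [h.1]; exact h.2.1.1

lemma Good.mem {F : ∀ a, (X a).obj ⟶ (X a).obj} {Z : SmProp k} {f : Fac W X Z}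
    (h : f.Good dg F) : f.val ∈ W.gr Z f.j :=
  W.pull_mem _ _ _ (h.elim IsA.mem IsB.mem)

lemma prod_mem {F : ∀ a, (X a).obj ⟶ (X a).obj} {Z : SmProp k} (L : List (Fac W X Z))
    (hL : ∀ f ∈ L, f.Good dg F) : (L.map val).prod ∈ W.gr Z (L.map Fac.j).sum := by
  induction L with
  | nil => simpa using W.one_mem Z
  | cons f L ih =>
    simp only [List.map_cons, List.prod_cons, List.sum_cons]
    exact W.mul_mem _ _ _ _ _ (hL f (by simp)).mem
      (ih fun g hg => hL g (List.mem_cons_of_mem _ hg))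

section

variable [Finite k] [CharZero K]

lemma Good.eig {F : ∀ a, (X a).obj ⟶ (X a).obj}
    (hF : ∀ a, IsAbsFrob (Nat.card k) (F a).left) {Z : SmProp k} {f : Fac W X Z}
    (h : f.Good dg F) {G : Z.obj ⟶ Z.obj} (hG : IsAbsFrob (Nat.card k) G.left) :
    f.val ∈ Module.End.maxGenEigenspace (W.pull G).toLinearMap f.z := by
  have h1 : f.h ∈ Module.End.maxGenEigenspace (W.pull (F f.a)).toLinearMap f.z := by
    rcases h with ⟨c, _, hz, hc⟩ | h
    · rw [Module.End.mem_maxGenEigenspace]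
      refine ⟨1, ?_⟩
      rw [pow_one, LinearMap.sub_apply, LinearMap.smul_apply, Module.End.one_apply,
        AlgHom.toLinearMap_apply, hc.frob (hF f.a), hz, sub_self]
    · exact h.2.1.2
  rw [Module.End.mem_maxGenEigenspace] at h1 ⊢
  obtain ⟨m, hm⟩ := h1
  refine ⟨m, ?_⟩
  have e : ∀ (n : ℕ) (y : W.H (X f.a)),
      (((W.pull G).toLinearMap - f.z • (1 : Module.End K (W.H Z))) ^ n) (W.pull f.pr y) =
        W.pull f.pr ((((W.pull (F f.a)).toLinearMap -
          f.z • (1 : Module.End K (W.H (X f.a)))) ^ n) y) := by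
    intro n
    induction n with
    | zero => intro y; simp
    | succ n ih =>
      intro y
      rw [pow_succ, pow_succ, Module.End.mul_apply, Module.End.mul_apply, ← ih]
      congr 1
      simp only [LinearMap.sub_apply, LinearMap.smul_apply, Module.End.one_apply,
        AlgHom.toLinearMap_apply, map_sub, map_smul]
      rw [← W.pull_comp, SmProp.frob_comm hG (hF f.a) f.pr, W.pull_comp]
  rw [val, e, hm, map_zero]

lemma prod_eig {F : ∀ a, (X a).obj ⟶ (X a).obj}
    (hF : ∀ a, IsAbsFrob (Nat.card k) (F a).left) {Z : SmProp k} (L : List (Fac W X Z))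
    (hL : ∀ f ∈ L, f.Good dg F) {G : Z.obj ⟶ Z.obj} (hG : IsAbsFrob (Nat.card k) G.left) :
    (L.map val).prod ∈ Module.End.maxGenEigenspace (W.pull G).toLinearMap (L.map Fac.z).prod := by
  induction L with
  | nil => simpa using genEig_one (W.pull G)
  | cons f L ih =>
    simp only [List.map_cons, List.prod_cons]
    exact genEig_mul _ ((hL f (by simp)).eig hF hG)
      (ih fun g hg => hL g (List.mem_cons_of_mem _ hg))

end

/-- The monomials are sums of products of an algebraic class and of good factors. -/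
lemma mono_mem_span [IsAlgClosed K] {F : ∀ a, (X a).obj ⟶ (X a).obj}
    (htate : ∀ a i, dg a = 2 * i → ∀ x ∈ W.eig (F a) (dg a) ((Nat.card k : K) ^ i),
      W.Alg (X a) i x) {T : SmProp k} {t : W.H T} (ht : W.Mono X dg T t) :
    t ∈ Submodule.span K {y | ∃ (c : ℕ) (γ : W.H T) (L : List (Fac W X T)), W.Alg T c γ ∧
      (∀ f ∈ L, f.Good dg F) ∧ y = γ * (L.map val).prod} := by
  induction ht with
  | @alg c γ h => exact Submodule.subset_span ⟨c, γ, [], h, by simp, by simp⟩
  | @mul a x y g hmono hy ih =>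
    clear hmono
    have key : ∀ f : Fac W X T, f.Good dg F → x * f.val ∈ Submodule.span K
        {y | ∃ (c : ℕ) (γ : W.H T) (L : List (Fac W X T)), W.Alg T c γ ∧
          (∀ f ∈ L, f.Good dg F) ∧ y = γ * (L.map val).prod} := by
      intro f hf
      induction ih using Submodule.span_induction with
      | zero => simp
      | add x x' _ _ h h' => rw [add_mul]; exact add_mem h h'
      | smul c x _ h => rw [smul_mul_assoc]; exact Submodule.smul_mem _ c h
      | mem x hx =>
        obtain ⟨c, γ, L, hγ, hL, rfl⟩ := hx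
        refine Submodule.subset_span ⟨c, γ, L ++ [f], hγ, ?_, ?_⟩
        · intro f' hf'
          rcases List.mem_append.mp hf' with h | h
          · exact hL f' h
          · rw [List.mem_singleton] at h
            rw [h]; exact hf
        · simp [mul_assoc]
    have := W.finite (X a)
    have h1 := Submodule.inf_iSup_genEigenspace (p := W.gr (X a) (dg a))
      (f := (W.pull (F a)).toLinearMap) (fun x hx => W.pull_mem _ _ _ hx) ⊤
    have htop : ⨆ μ, Module.End.maxGenEigenspace (W.pull (F a)).toLinearMap μ = ⊤ :=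
      Module.End.iSup_maxGenEigenspace_eq_top _
    change (W.gr (X a) (dg a) ⊓
      ⨆ μ, Module.End.maxGenEigenspace (W.pull (F a)).toLinearMap μ) =
        ⨆ μ, W.eig (F a) (dg a) μ at h1
    rw [htop, inf_top_eq] at h1
    have hy' : y ∈ ⨆ μ, W.eig (F a) (dg a) μ := h1 ▸ hy
    refine Submodule.iSup_induction (motive := fun y => x * W.pull g y ∈ Submodule.span K
      {y | ∃ (c : ℕ) (γ : W.H T) (L : List (Fac W X T)), W.Alg T c γ ∧
        (∀ f ∈ L, f.Good dg F) ∧ y = γ * (L.map val).prod})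
      _ hy' ?_ (by simp) (fun x y hx hy => by rw [map_add, mul_add]; exact add_mem hx hy)
    intro z y hy
    by_cases hT : ∃ i, dg a = 2 * i ∧ z = (Nat.card k : K) ^ i
    · obtain ⟨i, hi, rfl⟩ := hT
      exact key ⟨a, g, 2 * i, (Nat.card k : K) ^ i, y⟩ (Or.inl ⟨i, rfl, rfl, htate a i hi y hy⟩)
    · by_cases hbot : W.eig (F a) (dg a) z = ⊥
      · rw [hbot, Submodule.mem_bot] at hy
        rw [hy]; simp
      · exact key ⟨a, g, dg a, z, y⟩
          (Or.inr ⟨rfl, hy, hbot, fun i hi hz => hT ⟨i, hi, hz⟩⟩)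

/-- Products of algebraic factors. -/
lemma prod_A {Z : SmProp k} (L : List (Fac W X Z)) (hL : ∀ f ∈ L, f.IsA) :
    ∃ c, (L.map Fac.j).sum = 2 * c ∧ (L.map Fac.z).prod = (Nat.card k : K) ^ c ∧
      W.Alg Z c (L.map val).prod := by
  induction L with
  | nil => exact ⟨0, by simp, by simp, by simpa using WeilTheory.Alg.one Z⟩
  | cons f L ih =>
    obtain ⟨c, h1, h2, h3⟩ := ih fun g hg => hL g (List.mem_cons_of_mem _ hg)
    obtain ⟨d, h4, h5, h6⟩ := hL f (by simp)
    refine ⟨d + c, ?_, ?_, ?_⟩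
    · simp only [List.map_cons, List.sum_cons]; omega
    · simp only [List.map_cons, List.prod_cons, h2, h5, pow_add]
    · simp only [List.map_cons, List.prod_cons]
      exact WeilTheory.Alg.mul (WeilTheory.Alg.pull _ h6) h3

/-- Products of other factors whose keys can be paired. -/
lemma prod_B {F : ∀ a, (X a).obj ⟶ (X a).obj}
    (hstar : ∀ a z, (∀ i, dg a = 2 * i → z ≠ (Nat.card k : K) ^ i) →
      ∀ x ∈ W.eig (F a) (dg a) z, ∀ y ∈ W.eig (F a) (dg a) ((Nat.card k : K) ^ dg a / z),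
        W.Alg ((X a).prod (X a)) (dg a) (W.ext x y))
    {Z : SmProp k} (N : Multiset (ι × K)) : ∀ (L : List (Fac W X Z)), (∀ f ∈ L, f.IsB dg F) →
      ((L.map key : List (ι × K)) : Multiset (ι × K)) =
        N + N.map (fun p => (p.1, (Nat.card k : K) ^ dg p.1 / p.2)) →
      ∃ c, (L.map Fac.j).sum = 2 * c ∧ W.Alg Z c (L.map val).prod := by
  induction N using Multiset.induction_on with
  | empty =>
    intro L _ h
    have : L = [] := by simpa using h
    subst this
    exact ⟨0, by simp, by simpa using WeilTheory.Alg.one Z⟩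
  | cons p N ih =>
    intro L hL h
    rw [Multiset.map_cons, Multiset.cons_add, Multiset.add_cons] at h
    have hp : p ∈ L.map key := by
      have : p ∈ ((L.map key : List (ι × K)) : Multiset (ι × K)) := by rw [h]; simp
      simpa using this
    obtain ⟨f, hf, hfp⟩ := List.mem_map.mp hp
    classical
    obtain ⟨L1, hL1⟩ : ∃ L1, L.Perm (f :: L1) := ⟨L.erase f, List.perm_cons_erase hf⟩
    have h1 : ((L1.map key : List (ι × K)) : Multiset (ι × K)) =
        (p.1, (Nat.card k : K) ^ dg p.1 / p.2) ::ₘ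
          (N + N.map (fun p => (p.1, (Nat.card k : K) ^ dg p.1 / p.2))) := by
      have e : ((L.map key : List (ι × K)) : Multiset (ι × K)) =
          p ::ₘ ((L1.map key : List (ι × K)) : Multiset (ι × K)) := by
        rw [Multiset.coe_eq_coe.mpr (hL1.map key), List.map_cons, hfp, Multiset.cons_coe]
      rw [e] at h
      exact (Multiset.cons_inj_right p).mp h
    have hp' : (p.1, (Nat.card k : K) ^ dg p.1 / p.2) ∈ L1.map key := by
      have : (p.1, (Nat.card k : K) ^ dg p.1 / p.2) ∈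
          ((L1.map key : List (ι × K)) : Multiset (ι × K)) := by rw [h1]; simp
      simpa using this
    obtain ⟨g, hg, hgp⟩ := List.mem_map.mp hp'
    obtain ⟨L2, hL2⟩ : ∃ L2, L1.Perm (g :: L2) := ⟨L1.erase g, List.perm_cons_erase hg⟩
    have h2 : ((L2.map key : List (ι × K)) : Multiset (ι × K)) =
        N + N.map (fun p => (p.1, (Nat.card k : K) ^ dg p.1 / p.2)) := by
      have e : ((L1.map key : List (ι × K)) : Multiset (ι × K)) =
          (p.1, (Nat.card k : K) ^ dg p.1 / p.2) ::ₘ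
            ((L2.map key : List (ι × K)) : Multiset (ι × K)) := by
        rw [Multiset.coe_eq_coe.mpr (hL2.map key), List.map_cons, hgp, Multiset.cons_coe]
      rw [e] at h1
      exact (Multiset.cons_inj_right _).mp h1
    have hperm : L.Perm (f :: g :: L2) := hL1.trans (hL2.cons f)
    have hgL : g ∈ L := hperm.mem_iff.mpr (by simp)
    obtain ⟨c, hc1, hc2⟩ := ih L2 (fun f' hf' => hL f' (hperm.mem_iff.mpr (by simp [hf']))) h2
    have hfg : dg f.a = dg g.a ∧ W.Alg Z (dg f.a) (f.val * g.val) := by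
      have hfB := hL f hf
      have hgB := hL g hgL
      obtain ⟨fa, fpr, fj, fz, fh⟩ := f
      obtain ⟨ga, gpr, gj, gz, gh⟩ := g
      simp only [key] at hfp hgp
      subst hfp
      simp only [Prod.mk.injEq] at hgp
      obtain ⟨rfl, hgz⟩ := hgp
      refine ⟨rfl, ?_⟩
      have := hstar ga fz hfB.2.2.2 fh hfB.2.1 gh (by rw [← hgz]; exact hgB.2.1)
      have h3 := WeilTheory.Alg.pull (SmProp.lift fpr gpr) this
      rwa [WeilTheory.pull_ext] at h3
    obtain ⟨d, hd⟩ := W.perm_prod (hperm.map val) (by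
      intro x hx
      obtain ⟨f', hf', rfl⟩ := List.mem_map.mp hx
      exact ⟨f'.j, Good.mem (Or.inr (hL f' hf'))⟩)
    refine ⟨dg f.a + c, ?_, ?_⟩
    · rw [(hperm.map Fac.j).sum_eq]
      simp only [List.map_cons, List.sum_cons]
      have e1 := (hL f hf).1
      have e2 := (hL g hgL).1
      have e3 := hfg.1
      omega
    · rw [hd]
      simp only [List.map_cons, List.prod_cons]
      rw [← mul_assoc]
      exact WeilTheory.Alg.smul _ (WeilTheory.Alg.mul hfg.2 hc2)

variable [Finite k] [CharZero K]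

/-- The exterior products of classes in dual eigenspaces are algebraic. -/
lemma star [IsAlgClosed K] {F : ∀ a, (X a).obj ⟶ (X a).obj}
    (hF : ∀ a, IsAbsFrob (Nat.card k) (F a).left)
    (hpair : ∀ a z, (∀ i, dg a = 2 * i → z ≠ (Nat.card k : K) ^ i) →
      W.eig (F a) (dg a) z ≠ ⊥ →
      (∀ x ∈ W.eig (F a) (dg a) z, ∀ y ∈ W.eig (F a) (dg a) ((Nat.card k : K) ^ dg a / z),
          W.Alg ((X a).prod (X a)) (dg a) (W.ext x y)) ∨
      ((∃ e, ∀ l, ∀ x ∈ W.eig (F a) l z, ∃ c : K, x = c • e) ∧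
        ∃ d, W.Alg ((X a).prod (X a)) (dg a) d ∧ ∀ x ∈ W.gr (X a) (dg a),
          ∃ v, W.IsPush ((X a).fst (X a)) (d * W.pull ((X a).snd (X a)) v) x))
    (a : ι) (z : K) (hz : ∀ i, dg a = 2 * i → z ≠ (Nat.card k : K) ^ i) :
    ∀ x ∈ W.eig (F a) (dg a) z, ∀ y ∈ W.eig (F a) (dg a) ((Nat.card k : K) ^ dg a / z),
      W.Alg ((X a).prod (X a)) (dg a) (W.ext x y) := by
  intro x hx y hy
  by_cases hbot : W.eig (F a) (dg a) z = ⊥
  · rw [hbot, Submodule.mem_bot] at hx
    have : W.ext x y = 0 := by simp [WeilTheory.ext, hx]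
    rw [this]; exact WeilTheory.Alg.zero _ _
  rcases hpair a z hz hbot with h1 | ⟨⟨e', he'⟩, d, hd, hsurj⟩
  · exact h1 x hx y hy
  -- a generator of the line
  obtain ⟨e, he, he0⟩ := Submodule.exists_mem_ne_zero_of_ne_bot hbot
  have hspan : ∀ l, ∀ x ∈ W.eig (F a) l z, ∃ c : K, x = c • e := by
    intro l x hx
    obtain ⟨c, hc⟩ := he' _ e he
    obtain ⟨c', hc'⟩ := he' l x hx
    have hc0 : c ≠ 0 := by
      rintro rfl
      rw [zero_smul] at hc
      exact he0 hc
    refine ⟨c' * c⁻¹, ?_⟩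
    rw [hc', hc, smul_smul, mul_assoc, inv_mul_cancel₀ hc0, mul_one]
  obtain ⟨v, hv⟩ := hsurj e he.1
  obtain ⟨hz0, y0, hy0, hy0', hFy, halg⟩ :=
    W.exists_partner hd (hF a) he.1 he.2 he0 (fun l x h1 h2 => hspan l x ⟨h1, h2⟩) hv
  have hq : (Nat.card k : K) ≠ 0 := WeilTheory.q_ne
  set z' : K := (Nat.card k : K) ^ dg a / z with hz'
  have hy0m : y0 ∈ W.eig (F a) (dg a) z' := by
    refine ⟨hy0, ?_⟩
    change y0 ∈ Module.End.maxGenEigenspace (W.pull (F a)).toLinearMap z'
    rw [Module.End.mem_maxGenEigenspace]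
    refine ⟨1, ?_⟩
    rw [pow_one, LinearMap.sub_apply, LinearMap.smul_apply, Module.End.one_apply,
      AlgHom.toLinearMap_apply, hFy, sub_self]
  have hbot' : W.eig (F a) (dg a) z' ≠ ⊥ := by
    intro h
    rw [h, Submodule.mem_bot] at hy0m
    exact hy0' hy0m
  have hz'T : ∀ i, dg a = 2 * i → z' ≠ (Nat.card k : K) ^ i := by
    intro i hi h
    refine hz i hi ?_
    rw [hz', hi, two_mul, pow_add, div_eq_iff hz0] at h
    exact (mul_left_cancel₀ (pow_ne_zero i hq) h).symm
  have hz'' : (Nat.card k : K) ^ dg a / z' = z := by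
    rw [hz', div_div_eq_mul_div, mul_comm, mul_div_assoc, div_self (pow_ne_zero _ hq), mul_one]
  rcases hpair a z' hz'T hbot' with h2 | ⟨⟨e'', he''⟩, -⟩
  · rw [hz''] at h2
    exact WeilTheory.Alg.swap hy.1 hx.1 (h2 y hy x hx)
  · obtain ⟨c, hc⟩ := hspan _ x hx
    obtain ⟨d1, hd1⟩ := he'' _ y hy
    obtain ⟨d2, hd2⟩ := he'' _ y0 hy0m
    have hd20 : d2 ≠ 0 := by
      rintro rfl
      rw [zero_smul] at hd2
      exact hy0' hd2
    have : W.ext x y = (c * (d1 * d2⁻¹)) • W.ext e y0 := by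
      rw [hc, hd1, hd2]
      simp only [WeilTheory.ext, map_smul, smul_mul_assoc, mul_smul_comm, smul_smul]
      congr 1
      field_simp
    rw [this]
    exact WeilTheory.Alg.smul _ halg

/-- Products of good factors with the eigenvalue of a Tate class are algebraic. -/
lemma prod_alg {F : ∀ a, (X a).obj ⟶ (X a).obj}
    (hstar : ∀ a z, (∀ i, dg a = 2 * i → z ≠ (Nat.card k : K) ^ i) →
      ∀ x ∈ W.eig (F a) (dg a) z, ∀ y ∈ W.eig (F a) (dg a) ((Nat.card k : K) ^ dg a / z),
        W.Alg ((X a).prod (X a)) (dg a) (W.ext x y))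
    (hneat : ∀ M : Multiset (ι × K), (∀ p ∈ M, W.eig (F p.1) (dg p.1) p.2 ≠ ⊥ ∧
        ∀ i, dg p.1 = 2 * i → p.2 ≠ (Nat.card k : K) ^ i) →
      (∃ i, (M.map fun p => dg p.1).sum = 2 * i ∧
        (M.map fun p => p.2).prod = (Nat.card k : K) ^ i) →
      ∃ N, M = N + N.map fun p => (p.1, (Nat.card k : K) ^ dg p.1 / p.2))
    {Z : SmProp k} (L : List (Fac W X Z)) (hL : ∀ f ∈ L, f.Good dg F) {i : ℕ}
    (hj : (L.map Fac.j).sum = 2 * i) (hz : (L.map Fac.z).prod = (Nat.card k : K) ^ i) :
    W.Alg Z i (L.map val).prod := by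
  classical
  have hq : (Nat.card k : K) ≠ 0 := WeilTheory.q_ne
  let LA := L.filter (fun f => decide f.IsA)
  let LB := L.filter (fun f => !decide f.IsA)
  have hperm : (LA ++ LB).Perm L := List.filter_append_perm _ L
  have hLA : ∀ f ∈ LA, f.IsA := by
    intro f hf
    simpa using (List.mem_filter.mp hf).2
  have hLB : ∀ f ∈ LB, f.IsB dg F := by
    intro f hf
    obtain ⟨h, h'⟩ := List.mem_filter.mp hf
    rcases hL f h with hA | hB
    · simp [hA] at h'
    · exact hB
  obtain ⟨c, hc1, hc2, hc3⟩ := prod_A LA hLA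
  have hsum : (LA.map Fac.j).sum + (LB.map Fac.j).sum = 2 * i := by
    rw [← hj, ← (hperm.map Fac.j).sum_eq, List.map_append, List.sum_append]
  have hprod : (LA.map Fac.z).prod * (LB.map Fac.z).prod = (Nat.card k : K) ^ i := by
    rw [← hz, ← (hperm.map Fac.z).prod_eq, List.map_append, List.prod_append]
  have hsumB : (LB.map Fac.j).sum = 2 * (i - c) := by omega
  have hprodB : (LB.map Fac.z).prod = (Nat.card k : K) ^ (i - c) := by
    rw [hc2] at hprod
    have : (Nat.card k : K) ^ i = (Nat.card k : K) ^ c * (Nat.card k : K) ^ (i - c) := by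
      rw [← pow_add]; congr 1; omega
    rw [this] at hprod
    exact mul_left_cancel₀ (pow_ne_zero c hq) hprod
  obtain ⟨N, hN⟩ := hneat ((LB.map key : List (ι × K)) : Multiset (ι × K)) (by
    intro p hp
    obtain ⟨f, hf, rfl⟩ := List.mem_map.mp (Multiset.mem_coe.mp hp)
    exact ⟨(hLB f hf).2.2.1, (hLB f hf).2.2.2⟩) ⟨i - c, by
    rw [Multiset.map_coe, Multiset.sum_coe, List.map_map, ← hsumB]
    congr 1
    refine List.map_congr_left fun f hf => ?_
    exact (hLB f hf).1.symm, by
    rw [Multiset.map_coe, Multiset.prod_coe, List.map_map, ← hprodB]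
    rfl⟩
  obtain ⟨d, hd1, hd2⟩ := prod_B hstar N LB hLB hN
  obtain ⟨e, he⟩ := W.perm_prod (hperm.symm.map val) (by
    intro x hx
    obtain ⟨f', hf', rfl⟩ := List.mem_map.mp hx
    exact ⟨f'.j, (hL f' hf').mem⟩)
  rw [he, List.map_append, List.prod_append]
  have hcd : c + d = i := by omega
  rw [← hcd]
  exact WeilTheory.Alg.smul _ (WeilTheory.Alg.mul hc3 hd2)

end Fac

end Main

end Pool.Agent.TP
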