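import Mathlib

/-!
# Smooth proper schemes over a field and the absolute Frobenius
-/

set_option autoImplicit false

universe u

open CategoryTheory CategoryTheory.Limits AlgebraicGeometry

namespace Pool.Agent.TP

/-- Smooth proper schemes over a field `k`, of pure dimension `dim`. -/
structure SmProp (k : Type u) [Field k] where
  /-- the underlying scheme over `k` -/
  obj : Over (Spec (.of k))
  /-- the dimension -/
  dim : ℕ
  proper : IsProper obj.hom
  smooth : SmoothOfRelativeDimension dim obj.hom

attribute [instance] SmProp.proper SmProp.smooth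

namespace SmProp

variable {k : Type u} [Field k]

/-- The product of two smooth proper schemes over `k`. -/
noncomputable def prod (X Y : SmProp k) : SmProp k where
  obj := Over.mk (pullback.snd X.obj.hom Y.obj.hom ≫ Y.obj.hom)
  dim := X.dim + Y.dim
  proper := by
    have : IsProper (pullback.snd X.obj.hom Y.obj.hom) := inferInstance
    exact (inferInstance : IsProper (pullback.snd X.obj.hom Y.obj.hom ≫ Y.obj.hom))
  smooth := by
    have : SmoothOfRelativeDimension X.dim (pullback.snd X.obj.hom Y.obj.hom) :=
      (smoothOfRelativeDimension_isStableUnderBaseChange X.dim).of_isPullback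
        (IsPullback.of_hasPullback X.obj.hom Y.obj.hom) X.smooth
    exact (inferInstance : SmoothOfRelativeDimension (X.dim + Y.dim)
      (pullback.snd X.obj.hom Y.obj.hom ≫ Y.obj.hom))

/-- The first projection. -/
noncomputable def fst (X Y : SmProp k) : (X.prod Y).obj ⟶ X.obj :=
  Over.homMk (pullback.fst X.obj.hom Y.obj.hom) pullback.condition

/-- The second projection. -/
noncomputable def snd (X Y : SmProp k) : (X.prod Y).obj ⟶ Y.obj :=
  Over.homMk (pullback.snd X.obj.hom Y.obj.hom) rfl

/-- The morphism to a product given by a pair of morphisms. -/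
noncomputable def lift {Z X Y : SmProp k} (f : Z.obj ⟶ X.obj) (g : Z.obj ⟶ Y.obj) :
    Z.obj ⟶ (X.prod Y).obj :=
  Over.homMk (pullback.lift f.left g.left ((Over.w f).trans (Over.w g).symm))
    ((pullback.lift_snd_assoc _ _ _ _).trans (Over.w g))

@[reassoc (attr := simp)]
lemma lift_fst {Z X Y : SmProp k} (f : Z.obj ⟶ X.obj) (g : Z.obj ⟶ Y.obj) :
    lift f g ≫ fst X Y = f := by
  ext1
  exact pullback.lift_fst _ _ _

@[reassoc (attr := simp)]
lemma lift_snd {Z X Y : SmProp k} (f : Z.obj ⟶ X.obj) (g : Z.obj ⟶ Y.obj) :
    lift f g ≫ snd X Y = g := by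
  ext1
  exact pullback.lift_snd _ _ _

end SmProp

/-- `f : X ⟶ X` is the absolute `q`-Frobenius: on every ring-valued point `x : Spec R ⟶ X` it is
the composition of `x` with the `q`-th power map of `R`. -/
def IsAbsFrob (q : ℕ) {X : Scheme.{u}} (f : X ⟶ X) : Prop :=
  ∀ (R : CommRingCat.{u}) (φ : R ⟶ R), (∀ r : R, φ.hom r = r ^ q) →
    ∀ x : Spec R ⟶ X, x ≫ f = Spec.map φ ≫ x

end Pool.Agent.TP
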